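import Pool.Agent.Helper1.LR.Poly

/-!
Polynomials of small degree over a large field of characteristic 2: values at the points of a
cube are independent, and a good choice exists.
-/

open Finset

namespace Pool.Agent.Helper29.LS

variable {K : Type} [Field K] {V : Type} {J : ℕ}

/-- the affine functions of the coordinates -/
def AffK (ψ : V → K) (J : ℕ) : Submodule K ((Fin J → V) → K) :=
  Submodule.span K (insert 1 (Set.range fun (i : Fin J) (c : Fin J → V) => ψ (c i)))

/-- the polynomials of degree at most `d` -/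
def PolK (ψ : V → K) (J d : ℕ) : Submodule K ((Fin J → V) → K) := AffK ψ J ^ d

theorem one_mem_affK (ψ : V → K) (J : ℕ) : (1 : (Fin J → V) → K) ∈ AffK ψ J :=
  Submodule.subset_span (Set.mem_insert _ _)

theorem coord_mem_affK (ψ : V → K) (i : Fin J) : (fun c : Fin J → V => ψ (c i)) ∈ AffK ψ J :=
  Submodule.subset_span (Set.mem_insert_of_mem _ ⟨i, rfl⟩)

theorem one_mem_polK (ψ : V → K) (J d : ℕ) : (1 : (Fin J → V) → K) ∈ PolK ψ J d := by
  induction d with
  | zero =>
    unfold PolK
    rw [pow_zero]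
    exact Submodule.one_le.1 le_rfl
  | succ d ih =>
    unfold PolK at ih ⊢
    rw [pow_succ, ← mul_one (1 : (Fin J → V) → K)]
    exact Submodule.mul_mem_mul ih (one_mem_affK ψ J)

variable [DecidableEq V]

/-- the points of the cube with the corners `p`, `p'` -/
def cub (p p' : Fin J → V) : Finset (Fin J → V) := Fintype.piFinset fun i => {p i, p' i}

theorem mem_cub {p p' c : Fin J → V} : c ∈ cub p p' ↔ ∀ i, c i = p i ∨ c i = p' i := by
  unfold cub
  rw [Fintype.mem_piFinset]
  simp only [Finset.mem_insert, Finset.mem_singleton]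

/-- binary coordinates on the cube -/
def crd (p : Fin J → V) (c : Fin J → V) : Fin J → Fin 2 := fun i => if c i = p i then 0 else 1

theorem crd_injOn (p p' : Fin J → V) : Set.InjOn (crd p) (cub p p' : Set (Fin J → V)) := by
  intro c hc c' hc' h
  rw [Finset.mem_coe, mem_cub] at hc hc'
  funext i
  have h1 := congrFun h i
  unfold crd at h1
  by_cases h2 : c i = p i
  · rw [if_pos h2] at h1
    by_cases h3 : c' i = p i
    · rw [h2, h3]
    · rw [if_neg h3] at h1
      exact absurd h1 (by decide)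
  · rw [if_neg h2] at h1
    by_cases h3 : c' i = p i
    · rw [if_pos h3] at h1
      exact absurd h1 (by decide)
    · rw [(hc i).resolve_left h2, (hc' i).resolve_left h3]

/-- a function of the binary coordinates with values in `ZMod 2`, as a polynomial over `K` -/
theorem lift [CharP K 2] {ψ : V → K} {B : Finset V} (hψ : Set.InjOn ψ (B : Set V))
    {p p' : Fin J → V} (hp : ∀ i, p i ∈ B) (hp' : ∀ i, p' i ∈ B) (d : ℕ) :
    ∀ g ∈ Helper1.LR.Pol (Fin J) d, ∃ h ∈ PolK ψ J d, ∀ c ∈ cub p p',
      h c = ZMod.castHom (dvd_refl 2) K (g (crd p c)) := by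
  have haff : ∀ g ∈ Helper1.LR.Aff (Fin J), ∃ h ∈ AffK ψ J, ∀ c ∈ cub p p',
      h c = ZMod.castHom (dvd_refl 2) K (g (crd p c)) := by
    intro g hg
    unfold Helper1.LR.Aff at hg
    induction hg using Submodule.span_induction with
    | mem x hx =>
      rcases hx with rfl | ⟨i, rfl⟩
      · exact ⟨1, one_mem_affK ψ J, fun c _ => by rw [Pi.one_apply, Pi.one_apply, map_one]⟩
      · by_cases hne : p i = p' i
        · refine ⟨0, Submodule.zero_mem _, fun c hc => ?_⟩
          have h1 : c i = p i := by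
            rcases mem_cub.1 hc i with h | h
            · exact h
            · rw [h, hne]
          have h2 : crd p c i = 0 := by
            unfold crd
            rw [if_pos h1]
          unfold Helper1.LR.bitf
          rw [h2]
          simp
        · have hd : ψ (p' i) - ψ (p i) ≠ 0 := by
            intro h0
            exact hne (hψ (Finset.mem_coe.2 (hp i)) (Finset.mem_coe.2 (hp' i))
              (sub_eq_zero.1 h0).symm)
          refine ⟨(ψ (p' i) - ψ (p i))⁻¹ • ((fun c : Fin J → V => ψ (c i)) -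
            ψ (p i) • (1 : (Fin J → V) → K)), ?_, fun c hc => ?_⟩
          · exact Submodule.smul_mem _ _ (Submodule.sub_mem _ (coord_mem_affK ψ i)
              (Submodule.smul_mem _ _ (one_mem_affK ψ J)))
          · simp only [Pi.smul_apply, Pi.sub_apply, Pi.one_apply, smul_eq_mul, mul_one]
            unfold Helper1.LR.bitf
            rcases mem_cub.1 hc i with h | h
            · have h2 : crd p c i = 0 := by
                unfold crd
                rw [if_pos h]
              rw [h2, h, sub_self, mul_zero]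
              simp
            · have h2 : crd p c i = 1 := by
                unfold crd
                rw [if_neg]
                rw [h]
                exact fun h' => hne h'.symm
              rw [h2, h, inv_mul_cancel₀ hd]
              simp
    | zero =>
      exact ⟨0, Submodule.zero_mem _, fun c _ => by rw [Pi.zero_apply, Pi.zero_apply, map_zero]⟩
    | add x y _ _ hx hy =>
      obtain ⟨h1, h2, h3⟩ := hx
      obtain ⟨h4, h5, h6⟩ := hy
      refine ⟨h1 + h4, Submodule.add_mem _ h2 h5, fun c hc => ?_⟩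
      rw [Pi.add_apply, Pi.add_apply, map_add, h3 c hc, h6 c hc]
    | smul a x _ hx =>
      obtain ⟨h1, h2, h3⟩ := hx
      refine ⟨(ZMod.castHom (dvd_refl 2) K a) • h1, Submodule.smul_mem _ _ h2, fun c hc => ?_⟩
      rw [Pi.smul_apply, Pi.smul_apply, smul_eq_mul, smul_eq_mul, map_mul, h3 c hc]
  induction d with
  | zero =>
    intro g hg
    unfold Helper1.LR.Pol at hg
    rw [pow_zero, Submodule.mem_one] at hg
    obtain ⟨a, rfl⟩ := hg
    refine ⟨ZMod.castHom (dvd_refl 2) K a • 1, Submodule.smul_mem _ _ (one_mem_polK ψ J 0),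
      fun c _ => ?_⟩
    rw [Pi.smul_apply, Pi.one_apply, smul_eq_mul, mul_one]
    rfl
  | succ d ih =>
    intro g hg
    unfold Helper1.LR.Pol at hg
    rw [pow_succ] at hg
    induction hg using Submodule.mul_induction_on' with
    | mem_mul_mem m hm n hn =>
      obtain ⟨h1, h2, h3⟩ := ih m hm
      obtain ⟨h4, h5, h6⟩ := haff n hn
      refine ⟨h1 * h4, ?_, fun c hc => ?_⟩
      · unfold PolK at h2 ⊢
        rw [pow_succ]
        exact Submodule.mul_mem_mul h2 h5
      · rw [Pi.mul_apply, Pi.mul_apply, map_mul, h3 c hc, h6 c hc]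
    | add x _ y _ hx hy =>
      obtain ⟨h1, h2, h3⟩ := hx
      obtain ⟨h4, h5, h6⟩ := hy
      refine ⟨h1 + h4, Submodule.add_mem _ h2 h5, fun c hc => ?_⟩
      rw [Pi.add_apply, Pi.add_apply, map_add, h3 c hc, h6 c hc]

/-- isolation of a point of a cube -/
theorem isolateK [CharP K 2] {ψ : V → K} {B : Finset V} (hψ : Set.InjOn ψ (B : Set V))
    {p p' : Fin J → V} (hp : ∀ i, p i ∈ B) (hp' : ∀ i, p' i ∈ B) {d : ℕ}
    {W : Finset (Fin J → V)} (hW : W ⊆ cub p p') {c₀ : Fin J → V} (hc₀ : c₀ ∈ cub p p')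
    (hne : c₀ ∉ W) (hcard : W.card < 2 ^ d) :
    ∃ h ∈ PolK ψ J d, h c₀ = 1 ∧ ∀ c ∈ W, h c = 0 := by
  classical
  obtain ⟨g, hg, h1, h2⟩ := Helper1.LR.isolate d (W.image (crd p)) (crd p c₀) (by
    intro hmem
    obtain ⟨c, hc, e⟩ := Finset.mem_image.1 hmem
    have := crd_injOn p p' (Finset.mem_coe.2 (hW hc)) (Finset.mem_coe.2 hc₀) e
    rw [← this] at hne
    exact hne hc) (lt_of_le_of_lt Finset.card_image_le hcard)
  obtain ⟨h, hh, h3⟩ := lift hψ hp hp' d g hg
  refine ⟨h, hh, by rw [h3 c₀ hc₀, h1, map_one], fun c hc => ?_⟩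
  rw [h3 c (hW hc), h2 _ (Finset.mem_image_of_mem _ hc), map_zero]

variable [Fintype K] [DecidableEq K] [Fintype V]

open Classical in
/-- the polynomials as a finite set -/
noncomputable def PF (ψ : V → K) (J d : ℕ) : Finset ((Fin J → V) → K) :=
  univ.filter fun g => g ∈ PolK ψ J d

theorem mem_PF {ψ : V → K} {d : ℕ} {g : (Fin J → V) → K} :
    g ∈ PF ψ J d ↔ g ∈ PolK ψ J d := by
  classical
  unfold PF
  rw [Finset.mem_filter]
  exact ⟨fun h => h.2, fun h => ⟨Finset.mem_univ _, h⟩⟩

open Classical in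
/-- few polynomials are constant on a set of points of a cube -/
theorem const_card_le [CharP K 2] {ψ : V → K} {B : Finset V} (hψ : Set.InjOn ψ (B : Set V))
    {p p' : Fin J → V} (hp : ∀ i, p i ∈ B) (hp' : ∀ i, p' i ∈ B) {d N : ℕ}
    {W : Finset (Fin J → V)} (hW : W ⊆ cub p p') (hcard : W.card = N + 1) (hN : N < 2 ^ d) :
    Fintype.card K ^ N * ((PF ψ J d).filter fun g => ∃ t, ∀ c ∈ W, g c = t).card ≤
      (PF ψ J d).card := by
  obtain ⟨c₀, hc₀⟩ : W.Nonempty := by
    rw [← Finset.card_pos]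
    omega
  have hiso : ∀ c : ↥(W.erase c₀), ∃ h ∈ PolK ψ J d,
      h c = 1 ∧ ∀ x ∈ W, x ≠ c → h x = 0 := by
    intro c
    have hcW : (c : Fin J → V) ∈ W := Finset.mem_of_mem_erase c.2
    obtain ⟨h, h1, h2, h3⟩ := isolateK hψ hp hp' (d := d) (W := W.erase c)
      ((Finset.erase_subset _ _).trans hW) (hW hcW) (Finset.notMem_erase _ _)
      (by rw [Finset.card_erase_of_mem hcW, hcard]; omega)
    exact ⟨h, h1, h2, fun x hx hne => h3 x (Finset.mem_erase.2 ⟨hne, hx⟩)⟩
  choose G hG1 hG2 hG3 using hiso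
  have hc : Fintype.card K ^ N * ((PF ψ J d).filter fun g => ∃ t, ∀ c ∈ W, g c = t).card =
      ((univ : Finset (↥(W.erase c₀) → K)) ×ˢ
        ((PF ψ J d).filter fun g => ∃ t, ∀ c ∈ W, g c = t)).card := by
    rw [Finset.card_product, Finset.card_univ, Fintype.card_fun, Fintype.card_coe,
      Finset.card_erase_of_mem hc₀, hcard, Nat.add_sub_cancel]
  rw [hc]
  have hval0 : ∀ (κ : ↥(W.erase c₀) → K) (g : (Fin J → V) → K),
      (g + ∑ c, κ c • G c) c₀ = g c₀ := by
    intro κ g
    rw [Pi.add_apply, Finset.sum_apply, Finset.sum_eq_zero, add_zero]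
    intro c _
    rw [Pi.smul_apply, hG3 c c₀ hc₀ (fun h => (Finset.ne_of_mem_erase c.2) h.symm), smul_zero]
  have hval1 : ∀ (κ : ↥(W.erase c₀) → K) (g : (Fin J → V) → K)
      (c : ↥(W.erase c₀)), (g + ∑ c, κ c • G c) c = g c + κ c := by
    intro κ g c
    rw [Pi.add_apply, Finset.sum_apply, Finset.sum_eq_single c]
    · rw [Pi.smul_apply, hG2, smul_eq_mul, mul_one]
    · intro c' _ hne
      rw [Pi.smul_apply, hG3 c' c (Finset.mem_of_mem_erase c.2)
        (fun h => hne (Subtype.ext h.symm)), smul_zero]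
    · intro h
      exact absurd (Finset.mem_univ _) h
  refine Finset.card_le_card_of_injOn (fun x => x.2 + ∑ c, x.1 c • G c) ?_ ?_
  · rintro ⟨κ, g⟩ hx
    rw [Finset.mem_coe, Finset.mem_product, Finset.mem_filter] at hx
    rw [Finset.mem_coe, mem_PF]
    exact Submodule.add_mem _ (mem_PF.1 hx.2.1)
      (Submodule.sum_mem _ fun c _ => Submodule.smul_mem _ _ (hG1 c))
  · rintro ⟨κ, g⟩ hx ⟨κ', g'⟩ hx' heq
    rw [Finset.mem_coe, Finset.mem_product, Finset.mem_filter] at hx hx'
    obtain ⟨-, -, t, ht⟩ := hx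
    obtain ⟨-, -, t', ht'⟩ := hx'
    simp only at heq ht ht'
    have e0 := congrFun heq c₀
    rw [hval0, hval0, ht c₀ hc₀, ht' c₀ hc₀] at e0
    have e1 : κ = κ' := by
      funext c
      have h1 := congrFun heq c
      have hcW := Finset.mem_of_mem_erase c.2
      rw [hval1, hval1, ht _ hcW, ht' _ hcW, e0] at h1
      exact add_left_cancel h1
    subst e1
    exact Prod.ext rfl (add_right_cancel heq)

/-- **A good polynomial**: every level set has at most `2 J + 1` points in every cube. -/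
theorem exists_good [CharP K 2] {ψ : V → K} {B : Finset V} (hψ : Set.InjOn ψ (B : Set V))
    (J : ℕ) {d : ℕ} (hd : 2 * J + 1 < 2 ^ d) (hq : 2 ^ (2 * J * (J + 1)) < Fintype.card K) :
    ∃ g ∈ PolK ψ J d, ∀ p p' : Fin J → V, (∀ i, p i ∈ B) → (∀ i, p' i ∈ B) → ∀ t,
      ((cub p p').filter fun c => g c = t).card ≤ 2 * J + 1 := by
  classical
  by_contra hcon
  push Not at hcon
  set q := Fintype.card K with hqd
  have hBq : B.card ≤ q := by
    rw [← Finset.card_image_of_injOn hψ, hqd, ← Finset.card_univ]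
    exact Finset.card_le_card (Finset.subset_univ _)
  set I : Finset (((Fin J → V) × (Fin J → V))) :=
    (Fintype.piFinset fun _ => B) ×ˢ (Fintype.piFinset fun _ => B) with hI
  have hIcard : I.card ≤ q ^ (2 * J) := by
    rw [hI, Finset.card_product, Fintype.card_piFinset, Finset.prod_const, Finset.card_univ,
      Fintype.card_fin, ← pow_add, ← two_mul]
    exact Nat.pow_le_pow_left hBq _
  have hsub : PF ψ J d ⊆ I.biUnion fun w => (powersetCard (2 * J + 1 + 1) (cub w.1 w.2)).biUnion
      fun W => (PF ψ J d).filter fun g => ∃ t, ∀ c ∈ W, g c = t := by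
    intro g hg
    obtain ⟨p, p', hp, hp', t, hlt⟩ := hcon g (mem_PF.1 hg)
    obtain ⟨W, hW1, hW2⟩ := Finset.exists_subset_card_eq (Nat.succ_le_of_lt hlt)
    rw [Finset.mem_biUnion]
    refine ⟨(p, p'), ?_, ?_⟩
    · rw [hI, Finset.mem_product, Fintype.mem_piFinset, Fintype.mem_piFinset]
      exact ⟨hp, hp'⟩
    · rw [Finset.mem_biUnion]
      refine ⟨W, Finset.mem_powersetCard.2 ⟨hW1.trans (Finset.filter_subset _ _), hW2⟩, ?_⟩
      rw [Finset.mem_filter]
      exact ⟨hg, t, fun c hc => (Finset.mem_filter.1 (hW1 hc)).2⟩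
  have hpos : 0 < (PF ψ J d).card :=
    Finset.card_pos.2 ⟨0, mem_PF.2 (Submodule.zero_mem _)⟩
  have h1 : q ^ (2 * J + 1) * (PF ψ J d).card ≤
      q ^ (2 * J) * (2 ^ J) ^ (2 * J + 2) * (PF ψ J d).card := by
    calc q ^ (2 * J + 1) * (PF ψ J d).card
        ≤ q ^ (2 * J + 1) * ∑ w ∈ I, ∑ W ∈ powersetCard (2 * J + 1 + 1) (cub w.1 w.2),
            ((PF ψ J d).filter fun g => ∃ t, ∀ c ∈ W, g c = t).card :=
          Nat.mul_le_mul_left _ ((Finset.card_le_card hsub).trans
            (Finset.card_biUnion_le.trans (Finset.sum_le_sum fun w _ => Finset.card_biUnion_le)))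
      _ = ∑ w ∈ I, ∑ W ∈ powersetCard (2 * J + 1 + 1) (cub w.1 w.2),
            q ^ (2 * J + 1) * ((PF ψ J d).filter fun g => ∃ t, ∀ c ∈ W, g c = t).card := by
          rw [Finset.mul_sum]
          simp only [Finset.mul_sum]
      _ ≤ ∑ w ∈ I, ∑ W ∈ powersetCard (2 * J + 1 + 1) (cub w.1 w.2), (PF ψ J d).card := by
          refine Finset.sum_le_sum fun w hw => Finset.sum_le_sum fun W hW => ?_
          rw [hI, Finset.mem_product, Fintype.mem_piFinset, Fintype.mem_piFinset] at hw
          rw [Finset.mem_powersetCard] at hW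
          exact const_card_le hψ hw.1 hw.2 hW.1 hW.2 hd
      _ ≤ ∑ _w ∈ I, (2 ^ J) ^ (2 * J + 2) * (PF ψ J d).card := by
          refine Finset.sum_le_sum fun w _ => ?_
          rw [Finset.sum_const, smul_eq_mul]
          refine Nat.mul_le_mul_right _ ?_
          rw [Finset.card_powersetCard]
          refine (Nat.choose_le_pow _ _).trans (Nat.pow_le_pow_left ?_ _)
          unfold cub
          rw [Fintype.card_piFinset]
          calc ∏ i, ({w.1 i, w.2 i} : Finset V).card ≤ ∏ _i : Fin J, 2 :=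
                Finset.prod_le_prod' fun i _ => Finset.card_le_two
            _ = 2 ^ J := by rw [Finset.prod_const, Finset.card_univ, Fintype.card_fin]
      _ = I.card * ((2 ^ J) ^ (2 * J + 2) * (PF ψ J d).card) := by
          rw [Finset.sum_const, smul_eq_mul]
      _ ≤ q ^ (2 * J) * ((2 ^ J) ^ (2 * J + 2) * (PF ψ J d).card) :=
          Nat.mul_le_mul_right _ hIcard
      _ = q ^ (2 * J) * (2 ^ J) ^ (2 * J + 2) * (PF ψ J d).card := by ring
  have h2 := Nat.le_of_mul_le_mul_right h1 hpos
  have hq0 : 0 < q := lt_of_le_of_lt (Nat.zero_le _) hq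
  rw [pow_succ] at h2
  have h3 := Nat.le_of_mul_le_mul_left h2 (Nat.pow_pos hq0)
  rw [← pow_mul] at h3
  have e : J * (2 * J + 2) = 2 * J * (J + 1) := by ring
  rw [e] at h3
  omega

end Pool.Agent.Helper29.LS
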