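import Pool.Agent.Helper29.LS.Num
import Pool.Agent.Helper1.LR.Word
import Pool.Agent.Helper1.LR.Pad
import Pool.Agent.Helper84.TN.Supp

/-!
The level set of a polynomial in the values of the blocks: support rank at the nodes of a comb.
-/

open Finset

namespace Pool.Agent.Helper29.LS

open Pool.Agent.Helper82.CF (rep)
open Pool.Agent.Helper1.TY (rpF)
open Pool.Agent.Helper1.LR (value value_block value_digit value_lt gk_sum gk_word gk_one_sub gk_pow
  gk_dep_one gk_prod gk_zero exists_comb)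
open Pool.Agent.Helper84.TN (rk rk_mul ind rk_ind SuppRank)

variable {n L J : ℕ}

/-- the value of a block of digits -/
def bk (L J : ℕ) (i : Fin J) (w : Fin n → Fin 2) : Fin (2 ^ L) :=
  ⟨value w / (2 ^ L) ^ (i : ℕ) % 2 ^ L, Nat.mod_lt _ (Nat.two_pow_pos L)⟩

/-- the positions of a block -/
def pb (n L : ℕ) (i : ℕ) : Finset (Fin n) := univ.filter fun x : Fin n => (x : ℕ) / L = i

theorem bk_congr (i : Fin J) (w w' : Fin n → Fin 2) (h : ∀ x ∈ pb n L i, w x = w' x) :
    bk L J i w = bk L J i w' := by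
  apply Fin.ext
  exact value_block w w' fun x hx => h x (Finset.mem_filter.2 ⟨Finset.mem_univ _, hx⟩)

theorem bk_inj (hL : 1 ≤ L) (i : Fin J) (w w' : Fin n → Fin 2) (h : bk L J i w = bk L J i w') :
    ∀ x ∈ pb n L i, w x = w' x := by
  intro x hx
  have hx' : (x : ℕ) / L = i := (Finset.mem_filter.1 hx).2
  have h1 : value w / (2 ^ L) ^ (i : ℕ) % 2 ^ L = value w' / (2 ^ L) ^ (i : ℕ) % 2 ^ L :=
    congrArg Fin.val h
  have hr : (x : ℕ) % L < L := Nat.mod_lt _ hL
  have hxe : (x : ℕ) = (x : ℕ) % L + L * (i : ℕ) := by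
    rw [← hx']
    exact (Nat.mod_add_div _ _).symm
  have h2 := congrArg (fun y => y.testBit ((x : ℕ) % L)) h1
  simp only [← pow_mul] at h2
  rw [Nat.testBit_mod_two_pow, Nat.testBit_mod_two_pow, Nat.testBit_div_two_pow,
    Nat.testBit_div_two_pow, ← hxe] at h2
  simp only [hr, decide_true, Bool.true_and] at h2
  rw [Nat.testBit_eq_decide_div_mod_eq, Nat.testBit_eq_decide_div_mod_eq, value_digit,
    value_digit] at h2
  have h3 : ((w x : ℕ) = 1) ↔ ((w' x : ℕ) = 1) := decide_eq_decide.1 h2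
  have h4 := (w x).2
  have h5 := (w' x).2
  apply Fin.ext
  omega

variable {K : Type} [Field K] [Fintype K] [DecidableEq K]

theorem rk_block (hL : 1 ≤ L) (i : Fin J) (v₀ : Fin (2 ^ L)) (D : Finset (Fin n)) :
    rk (fun w : Fin n → Fin 2 => if bk L J i w = v₀ then (1 : K) else 0) D ≤ 1 := by
  classical
  by_cases hex : ∃ z : Fin n → Fin 2, bk L J i z = v₀
  · obtain ⟨z, hz⟩ := hex
    have e : (fun w : Fin n → Fin 2 => if bk L J i w = v₀ then (1 : K) else 0) =
        ind K (pb n L i) z := by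
      funext w
      by_cases h : ∀ x ∈ pb n L i, w x = z x
      · rw [Helper84.TN.ind_pos h, if_pos ((bk_congr i w z h).trans hz)]
      · rw [Helper84.TN.ind_neg h, if_neg]
        intro h'
        exact h (bk_inj hL i w z (h'.trans hz.symm))
    rw [e]
    exact rk_ind _ _ _
  · have e : (fun w : Fin n → Fin 2 => if bk L J i w = v₀ then (1 : K) else 0) = 0 := by
      funext w
      rw [if_neg fun h => hex ⟨w, h⟩]
      rfl
    rw [e]
    exact (gk_zero D).trans (Nat.zero_le _)

theorem rk_rest (D : Finset (Fin n)) (hL : 1 ≤ L) :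
    rk (fun w : Fin n → Fin 2 => if value w < (2 ^ L) ^ J then (1 : K) else 0) D ≤ 1 := by
  classical
  have e : (fun w : Fin n → Fin 2 => if value w < (2 ^ L) ^ J then (1 : K) else 0) =
      ind K (univ.filter fun x : Fin n => L * J ≤ (x : ℕ)) 0 := by
    funext w
    by_cases h : ∀ x ∈ univ.filter (fun x : Fin n => L * J ≤ (x : ℕ)), w x = (0 : Fin n → Fin 2) x
    · rw [Helper84.TN.ind_pos h, if_pos]
      rw [← pow_mul]
      by_contra hcon
      push Not at hcon
      obtain ⟨r, hr1, hr2⟩ := Nat.exists_ge_and_testBit_of_ge_two_pow hcon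
      have hrn : r < n := by
        by_contra hrn
        push Not at hrn
        have h1 : value w < 2 ^ r :=
          (value_lt w).trans_le (Nat.pow_le_pow_right (by norm_num) hrn)
        rw [Nat.testBit_lt_two_pow h1] at hr2
        exact absurd hr2 (by decide)
      have h1 := h ⟨r, hrn⟩ (Finset.mem_filter.2 ⟨Finset.mem_univ _, hr1⟩)
      have h2 := value_digit w ⟨r, hrn⟩
      rw [h1] at h2
      simp only at h2
      rw [Nat.testBit_eq_decide_div_mod_eq, h2] at hr2
      simp at hr2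
    · rw [Helper84.TN.ind_neg h, if_neg]
      intro hlt
      apply h
      intro x hx
      have hx' := (Finset.mem_filter.1 hx).2
      have h2 := value_digit w x
      have h3 : value w < 2 ^ (x : ℕ) := by
        rw [← pow_mul] at hlt
        exact hlt.trans_le (Nat.pow_le_pow_right (by norm_num) hx')
      rw [Nat.div_eq_of_lt h3] at h2
      apply Fin.ext
      rw [← h2]
      rfl
  rw [e]
  exact rk_ind _ _ _

theorem mem_levN (w : Fin n → Fin 2) {B : Finset (Fin (2 ^ L))}
    {g : (Fin J → Fin (2 ^ L)) → K} {t : K} :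
    value w ∈ levN (2 ^ L) J B g t ↔ (∀ i, bk L J i w ∈ B) ∧ value w < (2 ^ L) ^ J ∧
      g (fun i => bk L J i w) = t := by
  constructor
  · rintro ⟨c, hc, e⟩
    unfold lev at hc
    rw [Finset.mem_filter, Fintype.mem_piFinset] at hc
    have h1 : (fun i => bk L J i w) = c := by
      funext i
      apply Fin.ext
      change value w / (2 ^ L) ^ (i : ℕ) % 2 ^ L = c i
      rw [← e]
      exact val_div_mod c i
    refine ⟨fun i => ?_, ?_, ?_⟩
    · rw [congrFun h1 i]
      exact hc.1 i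
    · rw [← e]
      exact (finFunctionFinEquiv c).2
    · rw [h1]
      exact hc.2
  · rintro ⟨h1, h2, h3⟩
    refine ⟨fun i => bk L J i w, ?_, ?_⟩
    · unfold lev
      rw [Finset.mem_filter, Fintype.mem_piFinset]
      exact ⟨h1, h3⟩
    · have e : (fun i => bk L J i w) = finFunctionFinEquiv.symm ⟨value w, h2⟩ := by
        funext i
        apply Fin.ext
        rfl
      rw [e, Equiv.apply_symm_apply]

/-- the function whose support is the level set -/
def fn (n L J m : ℕ) (B : Finset (Fin (2 ^ L))) (g : (Fin J → Fin (2 ^ L)) → K) (t : K) :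
    (Fin n → Fin 2) → K := fun w =>
  (if value w < (2 ^ L) ^ J then 1 else 0) * ((∏ i, if bk L J i w ∈ B then 1 else 0) *
    (1 - (g (fun i => bk L J i w) - t) ^ (2 ^ m - 1)))

theorem fn_ne {m : ℕ} (hcard : Fintype.card K = 2 ^ m) (hm : 1 ≤ m) {B : Finset (Fin (2 ^ L))}
    {g : (Fin J → Fin (2 ^ L)) → K} {t : K} (w : Fin n → Fin 2) :
    fn n L J m B g t w ≠ 0 ↔ value w ∈ levN (2 ^ L) J B g t := by
  have hpow : 2 ^ m - 1 ≠ 0 := by
    have : 2 ^ 1 ≤ 2 ^ m := Nat.pow_le_pow_right (by norm_num) hm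
    omega
  rw [mem_levN]
  unfold fn
  rw [mul_ne_zero_iff, mul_ne_zero_iff]
  have h1 : (if value w < (2 ^ L) ^ J then (1 : K) else 0) ≠ 0 ↔ value w < (2 ^ L) ^ J := by
    by_cases h : value w < (2 ^ L) ^ J
    · simp [h]
    · simp [h]
  have h2 : (∏ i, if bk L J i w ∈ B then (1 : K) else 0) ≠ 0 ↔ ∀ i, bk L J i w ∈ B := by
    rw [Finset.prod_ne_zero_iff]
    constructor
    · intro h i
      by_contra h'
      exact h i (Finset.mem_univ i) (if_neg h')
    · intro h i _
      rw [if_pos (h i)]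
      exact one_ne_zero
  have h3 : 1 - (g (fun i => bk L J i w) - t) ^ (2 ^ m - 1) ≠ 0 ↔
      g (fun i => bk L J i w) = t := by
    constructor
    · intro h
      by_contra h'
      apply h
      have h4 := FiniteField.pow_card_sub_one_eq_one (g (fun i => bk L J i w) - t)
        (sub_ne_zero.2 h')
      rw [hcard] at h4
      rw [h4, sub_self]
    · intro h
      rw [h, sub_self, zero_pow hpow, sub_zero]
      exact one_ne_zero
  rw [h1, h2, h3]
  tauto

/-- **Support rank of the level set.** -/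
theorem rk_fn [CharP K 2] {m d : ℕ} (hL : 1 ≤ L) {ψ : Fin (2 ^ L) → K} {B : Finset (Fin (2 ^ L))}
    {g : (Fin J → Fin (2 ^ L)) → K} (hg : g ∈ PolK ψ J d) (t : K) (D : Finset (Fin n))
    (i₀ : Fin J) (hD : ∀ i : Fin J, i ≠ i₀ → pb n L i ⊆ D ∨ Disjoint (pb n L i) D) :
    rk (fn n L J m B g t) D ≤ B.card * (1 + (J + 1) ^ (d * m)) := by
  classical
  set P : (Fin J → Fin (2 ^ L)) → K := g - t • 1 with hP
  have hPmem : P ∈ PolK ψ J d :=
    Submodule.sub_mem _ hg (Submodule.smul_mem _ _ (one_mem_polK ψ J d))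
  have e : fn n L J m B g t = (fun w : Fin n → Fin 2 => if value w < (2 ^ L) ^ J then (1 : K)
      else 0) * ∑ v₀ ∈ B, (fun w : Fin n → Fin 2 => if bk L J i₀ w = v₀ then (1 : K) else 0) *
        ((∏ i ∈ univ.erase i₀, fun w : Fin n → Fin 2 => if bk L J i w ∈ B then (1 : K) else 0) *
          (1 - (fun w : Fin n → Fin 2 =>
            P (Function.update (fun i => bk L J i w) i₀ v₀)) ^ (2 ^ m - 1))) := by
    funext w
    unfold fn
    rw [Pi.mul_apply, Finset.sum_apply]
    congr 1
    simp only [Pi.mul_apply, Pi.sub_apply, Pi.one_apply, Pi.pow_apply, Finset.prod_apply]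
    by_cases hB : bk L J i₀ w ∈ B
    · rw [Finset.sum_eq_single (bk L J i₀ w)]
      · have h1 : Function.update (fun i => bk L J i w) i₀ (bk L J i₀ w) =
            fun i => bk L J i w := Function.update_eq_self i₀ _
        rw [if_pos rfl, one_mul, h1, ← Finset.mul_prod_erase univ _ (Finset.mem_univ i₀),
          if_pos hB, one_mul]
        congr 3
        rw [hP, Pi.sub_apply, Pi.smul_apply, Pi.one_apply, smul_eq_mul, mul_one]
      · intro v _ hne
        rw [if_neg fun h => hne h.symm, zero_mul]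
      · intro h
        exact absurd hB h
    · rw [Finset.prod_eq_zero (Finset.mem_univ i₀) (if_neg hB), zero_mul]
      symm
      apply Finset.sum_eq_zero
      intro v hv
      rw [if_neg, zero_mul]
      intro h
      rw [h] at hB
      exact hB hv
  rw [e]
  calc rk _ D ≤ 1 * ∑ v₀ ∈ B, 1 * (1 * (1 + (J + 1) ^ (d * m))) := by
        refine (rk_mul _ _ _).trans (Nat.mul_le_mul (rk_rest D hL) ((gk_sum _ _ _).trans
          (Finset.sum_le_sum fun v₀ _ => ?_)))
        refine (rk_mul _ _ _).trans (Nat.mul_le_mul (rk_block hL i₀ v₀ D)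
          ((rk_mul _ _ _).trans (Nat.mul_le_mul ?_ ?_)))
        · refine (gk_prod _ _ _).trans ?_
          calc ∏ i ∈ univ.erase i₀, rk (fun w : Fin n → Fin 2 =>
                if bk L J i w ∈ B then (1 : K) else 0) D ≤ ∏ _i ∈ univ.erase i₀, 1 := by
                refine Finset.prod_le_prod' fun i hi => ?_
                refine gk_dep_one _ (pb n L i) D (fun w w' h => ?_)
                  (hD i (Finset.ne_of_mem_erase hi))
                rw [bk_congr i w w' h]
            _ = 1 := Finset.prod_const_one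
        · refine (gk_one_sub _ _).trans (Nat.add_le_add_left ?_ 1)
          refine (gk_pow _ _ _).trans ?_
          rw [pow_mul]
          exact Nat.pow_le_pow_left (gk_word ψ (fun i => pb n L i) (fun i w => bk L J i w)
            (fun i w w' h => bk_congr i w w' h) D i₀ hD v₀ hPmem) _
    _ = B.card * (1 + (J + 1) ^ (d * m)) := by
        rw [Finset.sum_const, smul_eq_mul]
        ring

/-- the nodes of the comb cut at most one block -/
theorem comb_cut (hJ : 1 ≤ J) {D : Finset (Fin n)} (hD : D.card = 1 ∨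
    ∃ c : ℕ, D = univ.filter fun i : Fin n => (i : ℕ) < c) :
    ∃ i₀ : Fin J, ∀ i : Fin J, i ≠ i₀ → pb n L i ⊆ D ∨ Disjoint (pb n L i) D := by
  classical
  have key : ∀ b₀ : ℕ, (∀ i : ℕ, i ≠ b₀ → pb n L i ⊆ D ∨ Disjoint (pb n L i) D) →
      ∃ i₀ : Fin J, ∀ i : Fin J, i ≠ i₀ → pb n L i ⊆ D ∨ Disjoint (pb n L i) D := by
    intro b₀ h
    by_cases hb : b₀ < J
    · exact ⟨⟨b₀, hb⟩, fun i hi => h i fun h' => hi (Fin.ext h')⟩
    · exact ⟨⟨0, hJ⟩, fun i _ => h i (by have := i.2; omega)⟩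
  rcases hD with h1 | ⟨c, rfl⟩
  · obtain ⟨x, rfl⟩ := Finset.card_eq_one.1 h1
    refine key ((x : ℕ) / L) fun i hi => Or.inr ?_
    rw [Finset.disjoint_singleton_right, pb, Finset.mem_filter]
    rintro ⟨-, h⟩
    exact hi h.symm
  · refine key (c / L) fun i hi => ?_
    rcases lt_or_gt_of_ne hi with h | h
    · left
      intro x hx
      rw [pb, Finset.mem_filter] at hx
      rw [Finset.mem_filter]
      refine ⟨Finset.mem_univ _, ?_⟩
      by_contra hcon
      push Not at hcon
      have := Nat.div_le_div_right (c := L) hcon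
      omega
    · right
      rw [Finset.disjoint_left]
      intro x hx hx'
      rw [pb, Finset.mem_filter] at hx
      rw [Finset.mem_filter] at hx'
      have := Nat.div_le_div_right (c := L) hx'.2.le
      omega

/-- **The block set.** -/
theorem block_set {n L J m dd : ℕ} {S₀ : Finset ℕ} (hJ : 1 ≤ J) (hL : 1 ≤ L) (hn : J * L ≤ n)
    (hS1 : ∀ a ∈ S₀, 2 * a < 2 ^ L) (hS2 : ∀ N, rpF S₀ N ≤ 2) (hm : S₀.card ≤ 2 ^ m)
    (hm1 : 1 ≤ m) (hq : 2 ^ (2 * J * (J + 1)) < 2 ^ m) (hdd : 2 * J + 1 < 2 ^ dd) :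
    ∃ (A : Set ℕ) (S : Finset (Fin n → Fin 2)) (T : Helper84.TN.Tree (Fin n)),
      T.Proper ∧ T.set = Finset.univ ∧
      (∀ D ∈ T.blocks, SuppRank S D (S₀.card * (1 + (J + 1) ^ (dd * m)))) ∧
      (∀ v, v ∈ S ↔ Helper84.TN.value v ∈ A) ∧ (∀ a ∈ A, a < 2 ^ (J * L)) ∧
      S₀.card ^ J ≤ 2 ^ m * S.card ∧ ∀ N, rep A N ≤ 2 * J + 1 := by
  classical
  haveI : Fact (Nat.Prime 2) := ⟨Nat.prime_two⟩
  let K := GaloisField 2 m
  haveI : Fintype K := Fintype.ofFinite K
  have hcard : Fintype.card K = 2 ^ m := by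
    rw [← Nat.card_eq_fintype_card]
    exact GaloisField.card 2 m (by omega)
  set B : Finset (Fin (2 ^ L)) := univ.filter fun v => (v : ℕ) ∈ S₀ with hB
  have hBmem : ∀ v, v ∈ B ↔ (v : ℕ) ∈ S₀ := by
    intro v
    rw [hB, Finset.mem_filter]
    exact ⟨fun h => h.2, fun h => ⟨Finset.mem_univ _, h⟩⟩
  have hBcard : B.card = S₀.card := by
    refine Finset.card_bij (fun v _ => (v : ℕ)) (fun v hv => (hBmem v).1 hv)
      (fun v _ v' _ h => Fin.ext h) ?_
    intro a ha
    exact ⟨⟨a, by have := hS1 a ha; omega⟩, (hBmem _).2 ha, rfl⟩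
  obtain ⟨ψ, hψ⟩ : ∃ ψ : Fin (2 ^ L) → K, Set.InjOn ψ (B : Set (Fin (2 ^ L))) := by
    have h1 : B.card ≤ (univ : Finset K).card := by
      rw [hBcard, Finset.card_univ, hcard]
      exact hm
    obtain ⟨B', -, hB'⟩ := Finset.exists_subset_card_eq h1
    obtain ⟨e⟩ : Nonempty (B ≃ B') := ⟨Finset.equivOfCardEq hB'.symm⟩
    refine ⟨fun v => if h : v ∈ B then (e ⟨v, h⟩ : K) else 0, ?_⟩
    intro v hv v' hv' h
    rw [Finset.mem_coe] at hv hv'
    simp only [dif_pos hv, dif_pos hv'] at h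
    have := e.injective (Subtype.ext h)
    exact congrArg Subtype.val this
  obtain ⟨g, hg, hgood⟩ := exists_good hψ J hdd (by rw [hcard]; exact hq)
  obtain ⟨t, ht⟩ := exists_level (J := J) B g (by rw [hcard]; exact Nat.two_pow_pos m)
  have hn1 : 1 ≤ n := le_trans (Nat.mul_pos hJ hL) hn
  obtain ⟨T, hT1, hT2, hT3⟩ := exists_comb hn1
  set S : Finset (Fin n → Fin 2) := univ.filter fun w => value w ∈ levN (2 ^ L) J B g t with hS
  have hSmem : ∀ w, w ∈ S ↔ value w ∈ levN (2 ^ L) J B g t := by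
    intro w
    rw [hS, Finset.mem_filter]
    exact ⟨fun h => h.2, fun h => ⟨Finset.mem_univ _, h⟩⟩
  have epow : (2 ^ L) ^ J = 2 ^ (J * L) := by rw [← pow_mul, mul_comm L J]
  have hlt : ∀ a ∈ levN (2 ^ L) J B g t, a < 2 ^ (J * L) := by
    rintro a ⟨c, -, rfl⟩
    exact lt_of_lt_of_eq (finFunctionFinEquiv c).2 epow
  refine ⟨levN (2 ^ L) J B g t, S, T, hT1, hT2, fun D hD => ?_, fun v => hSmem v, hlt, ?_,
    fun N => rep_levN (Nat.two_pow_pos L) hS1 hS2 hBmem hgood t N⟩
  · obtain ⟨i₀, hi₀⟩ := comb_cut (L := L) hJ (hT3 D hD)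
    refine ⟨K, inferInstance, fn n L J m B g t, fun w => ?_, ?_⟩
    · rw [fn_ne hcard hm1, hSmem]
    · rw [← hBcard]
      exact rk_fn hL hg t D i₀ hi₀
  · rw [← hBcard]
    refine ht.trans ?_
    rw [hcard]
    refine Nat.mul_le_mul_left _ ?_
    have h1 : ∀ c : Fin J → Fin (2 ^ L), ∃ w : Fin n → Fin 2,
        value w = (finFunctionFinEquiv c : ℕ) := by
      intro c
      apply Helper1.LR.exists_value
      exact (lt_of_lt_of_eq (finFunctionFinEquiv c).2 epow).trans_le
        (Nat.pow_le_pow_right (by norm_num) hn)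
    choose W hW using h1
    refine Finset.card_le_card_of_injOn W ?_ ?_
    · intro c hc
      rw [Finset.mem_coe, hSmem, hW]
      exact ⟨c, hc, rfl⟩
    · intro c _ c' _ h
      have h2 : (finFunctionFinEquiv c : ℕ) = finFunctionFinEquiv c' := by
        rw [← hW c, ← hW c', h]
      exact finFunctionFinEquiv.injective (Fin.ext h2)

end Pool.Agent.Helper29.LS
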