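import Pool.Agent.Helper29.LS.Set

/-!
Univariate polynomials over an extension of the field: the level sets have smaller support rank.
-/

open Finset

namespace Pool.Agent.Helper29.LS

open Pool.Agent.Helper82.CF (rep)
open Pool.Agent.Helper1.TY (rpF)
open Pool.Agent.Helper1.LR (value value_block value_digit value_lt gk_sum gk_one_sub gk_pow
  gk_dep_one gk_prod gk_zero exists_comb)
open Pool.Agent.Helper84.TN (rk rk_mul ind rk_ind row SuppRank)
open Polynomial

section

variable {K : Type} [Field K] {V : Type} {J : ℕ} {E : Type} [Field E] [Algebra K E]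

/-- the element of the extension -/
def hat (ψ : V → K) (ω : Fin J → E) (c : Fin J → V) : E := ∑ i, ψ (c i) • ω i

/-- the functions `φ (g (hat c))`, `g` a polynomial of degree less than `M` -/
def WE (φ : E →ₗ[K] K) (ψ : V → K) (ω : Fin J → E) (M : ℕ) :
    Submodule K ((Fin J → V) → K) where
  carrier := {f | ∃ g : E[X], g.degree < M ∧ ∀ c, f c = φ (g.eval (hat ψ ω c))}
  add_mem' := by
    rintro f f' ⟨g, hg, hf⟩ ⟨g', hg', hf'⟩
    refine ⟨g + g', lt_of_le_of_lt (degree_add_le _ _) (max_lt hg hg'), fun c => ?_⟩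
    rw [Pi.add_apply, hf, hf', eval_add, map_add]
  zero_mem' := ⟨0, by rw [degree_zero]; exact WithBot.bot_lt_coe M, fun c => by
    rw [eval_zero, map_zero, Pi.zero_apply]⟩
  smul_mem' := by
    rintro k f ⟨g, hg, hf⟩
    refine ⟨C (algebraMap K E k) * g, ?_, fun c => ?_⟩
    · by_cases hk : algebraMap K E k = 0
      · rw [hk, C_0, zero_mul, degree_zero]
        exact WithBot.bot_lt_coe M
      · rw [degree_C_mul hk]
        exact hg
    · rw [Pi.smul_apply, hf, eval_mul, eval_C, ← Algebra.smul_def, map_smul]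

theorem mem_WE {φ : E →ₗ[K] K} {ψ : V → K} {ω : Fin J → E} {M : ℕ} {f : (Fin J → V) → K} :
    f ∈ WE φ ψ ω M ↔ ∃ g : E[X], g.degree < M ∧ ∀ c, f c = φ (g.eval (hat ψ ω c)) := Iff.rfl

theorem one_mem_WE {φ : E →ₗ[K] K} {lam : E} (hlam : φ lam = 1) (ψ : V → K) (ω : Fin J → E)
    {M : ℕ} (hM : 1 ≤ M) : (1 : (Fin J → V) → K) ∈ WE φ ψ ω M := by
  refine ⟨C lam, lt_of_le_of_lt degree_C_le (by exact_mod_cast hM), fun c => ?_⟩
  rw [eval_C, hlam, Pi.one_apply]

theorem hat_injOn {ψ : V → K} {B : Finset V} (hψ : Set.InjOn ψ (B : Set V)) {ω : Fin J → E}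
    (hω : LinearIndependent K ω) {c c' : Fin J → V} (hc : ∀ i, c i ∈ B) (hc' : ∀ i, c' i ∈ B)
    (h : hat ψ ω c = hat ψ ω c') : c = c' := by
  unfold hat at h
  have h1 : ∑ i, (ψ (c i) - ψ (c' i)) • ω i = 0 := by
    simp only [sub_smul, Finset.sum_sub_distrib]
    rw [h, sub_self]
  have h2 := (Fintype.linearIndependent_iff.1 hω) _ h1
  funext i
  exact hψ (Finset.mem_coe.2 (hc i)) (Finset.mem_coe.2 (hc' i)) (sub_eq_zero.1 (h2 i))

/-- isolation of a point -/
theorem isolateE {φ : E →ₗ[K] K} {lam : E} (hlam : φ lam = 1) {ψ : V → K} {B : Finset V}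
    (hψ : Set.InjOn ψ (B : Set V)) {ω : Fin J → E} (hω : LinearIndependent K ω) {M : ℕ}
    [DecidableEq V] {W : Finset (Fin J → V)} (hW : ∀ c ∈ W, ∀ i, c i ∈ B) (hcard : W.card ≤ M)
    {c₀ : Fin J → V} (hc₀ : c₀ ∈ W) :
    ∃ h ∈ WE φ ψ ω M, h c₀ = 1 ∧ ∀ x ∈ W, x ≠ c₀ → h x = 0 := by
  set p : E[X] := ∏ c ∈ W.erase c₀, (X - C (hat ψ ω c)) with hp
  have hne : p.eval (hat ψ ω c₀) ≠ 0 := by
    rw [hp, eval_prod, Finset.prod_ne_zero_iff]
    intro c hc h0
    rw [eval_sub, eval_X, eval_C] at h0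
    have := hat_injOn hψ hω (hW c₀ hc₀) (hW c (Finset.mem_of_mem_erase hc)) (sub_eq_zero.1 h0)
    exact (Finset.ne_of_mem_erase hc) this.symm
  have hdeg : p.degree = ((W.erase c₀).card : WithBot ℕ) := by
    rw [hp, degree_prod]
    simp only [degree_X_sub_C, Finset.sum_const, nsmul_eq_mul, mul_one]
  refine ⟨fun c => φ ((C (lam / p.eval (hat ψ ω c₀)) * p).eval (hat ψ ω c)),
    ⟨C (lam / p.eval (hat ψ ω c₀)) * p, ?_, fun c => rfl⟩, ?_, fun x hx hxne => ?_⟩
  · have hl : lam ≠ 0 := by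
      intro h0
      rw [h0, map_zero] at hlam
      exact zero_ne_one hlam
    refine lt_of_le_of_lt (degree_C_mul (div_ne_zero hl hne)).le ?_
    rw [hdeg, Finset.card_erase_of_mem hc₀]
    have : 0 < W.card := Finset.card_pos.2 ⟨c₀, hc₀⟩
    have h2 : W.card - 1 < M := by omega
    exact_mod_cast h2
  · simp only [eval_mul, eval_C]
    rw [div_mul_cancel₀ _ hne, hlam]
  · simp only [eval_mul, eval_C]
    have h0 : p.eval (hat ψ ω x) = 0 := by
      rw [hp, eval_prod]
      apply Finset.prod_eq_zero (Finset.mem_erase.2 ⟨hxne, hx⟩)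
      rw [eval_sub, eval_X, eval_C, sub_self]
    rw [h0, mul_zero, map_zero]

theorem ecomp (g : E[X]) (a x : E) : (g.comp (X + C a)).eval x = g.eval (x + a) := by
  rw [eval_comp, eval_add, eval_X, eval_C]

/-- **Rank of a polynomial in the values of the uncut blocks.** -/
theorem rk_WE [FiniteDimensional K E] {ι β : Type} [DecidableEq ι] [Finite ι] [Finite β]
    {φ : E →ₗ[K] K} {ψ : V → K} {ω : Fin J → E} {M : ℕ} (B : Fin J → Finset ι)
    (blk : Fin J → (ι → β) → V)
    (hblk : ∀ i w w', (∀ x ∈ B i, w x = w' x) → blk i w = blk i w') (D : Finset ι) (i₀ : Fin J)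
    (hD : ∀ i, i ≠ i₀ → B i ⊆ D ∨ Disjoint (B i) D) (v₀ : V)
    {P : (Fin J → V) → K} (hP : P ∈ WE φ ψ ω M) :
    rk (fun w : ι → β => P (Function.update (fun i => blk i w) i₀ v₀)) D ≤
      Module.finrank K E * M := by
  classical
  obtain ⟨g, hg, hPg⟩ := hP
  -- the two parts
  set α : (ι → β) → E := fun v => ψ v₀ • ω i₀ +
    ∑ i ∈ univ.filter (fun i => i ≠ i₀ ∧ B i ⊆ D), ψ (blk i v) • ω i with hα
  set γ : (ι → β) → E := fun w =>
    ∑ i ∈ univ.filter (fun i => i ≠ i₀ ∧ ¬ B i ⊆ D), ψ (blk i w) • ω i with hγ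
  have hsplit : ∀ v w : ι → β, hat ψ ω (Function.update (fun i => blk i (D.piecewise v w)) i₀ v₀) =
      γ w + α v := by
    intro v w
    have h1 : ∀ i, i ≠ i₀ → B i ⊆ D → blk i (D.piecewise v w) = blk i v := fun i _ hB =>
      hblk i _ _ fun x hx => piecewise_eq_of_mem _ _ _ (hB hx)
    have h2 : ∀ i, i ≠ i₀ → ¬ B i ⊆ D → blk i (D.piecewise v w) = blk i w := fun i hi hB =>
      hblk i _ _ fun x hx => piecewise_eq_of_notMem _ _ _
        (Finset.disjoint_left.1 ((hD i hi).resolve_left hB) hx)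
    unfold hat
    rw [hα, hγ]
    simp only
    rw [← Finset.add_sum_erase univ _ (Finset.mem_univ i₀), Function.update_self,
      ← Finset.sum_filter_add_sum_filter_not (univ.erase i₀) (fun i => B i ⊆ D)]
    have e1 : (univ.erase i₀).filter (fun i => B i ⊆ D) =
        univ.filter fun i => i ≠ i₀ ∧ B i ⊆ D := by
      ext i
      simp only [Finset.mem_filter, Finset.mem_erase, Finset.mem_univ, and_true, true_and]
    have e2 : (univ.erase i₀).filter (fun i => ¬ B i ⊆ D) =
        univ.filter fun i => i ≠ i₀ ∧ ¬ B i ⊆ D := by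
      ext i
      simp only [Finset.mem_filter, Finset.mem_erase, Finset.mem_univ, and_true, true_and]
    rw [e1, e2]
    have e3 : ∑ x ∈ univ.filter (fun i => i ≠ i₀ ∧ B i ⊆ D),
        ψ (Function.update (fun i => blk i (D.piecewise v w)) i₀ v₀ x) • ω x =
        ∑ i ∈ univ.filter (fun i => i ≠ i₀ ∧ B i ⊆ D), ψ (blk i v) • ω i := by
      refine Finset.sum_congr rfl fun i hi => ?_
      obtain ⟨-, hi1, hi2⟩ := Finset.mem_filter.1 hi
      rw [Function.update_of_ne hi1, h1 i hi1 hi2]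
    have e4 : ∑ x ∈ univ.filter (fun i => i ≠ i₀ ∧ ¬ B i ⊆ D),
        ψ (Function.update (fun i => blk i (D.piecewise v w)) i₀ v₀ x) • ω x =
        ∑ i ∈ univ.filter (fun i => i ≠ i₀ ∧ ¬ B i ⊆ D), ψ (blk i w) • ω i := by
      refine Finset.sum_congr rfl fun i hi => ?_
      obtain ⟨-, hi1, hi2⟩ := Finset.mem_filter.1 hi
      rw [Function.update_of_ne hi1, h2 i hi1 hi2]
    rw [e3, e4]
    ring
  -- the space of the rows
  let Φ : (Fin M → E) →ₗ[K] ((ι → β) → K) :=
    { toFun := fun a w => φ (∑ j, a j * γ w ^ (j : ℕ))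
      map_add' := fun a a' => by
        funext w
        simp only [Pi.add_apply, add_mul, Finset.sum_add_distrib, map_add]
      map_smul' := fun k a => by
        funext w
        simp only [Pi.smul_apply, RingHom.id_apply, smul_mul_assoc, ← Finset.smul_sum, map_smul] }
  have hrow : ∀ v : ι → β,
      row (fun w : ι → β => P (Function.update (fun i => blk i w) i₀ v₀)) D v =
        Φ fun j => (g.comp (X + C (α v))).coeff j := by
    intro v
    funext w
    change P (Function.update (fun i => blk i (D.piecewise v w)) i₀ v₀) =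
      φ (∑ j : Fin M, (g.comp (X + C (α v))).coeff j * γ w ^ (j : ℕ))
    rw [hPg, hsplit]
    congr 1
    have hM : (g.comp (X + C (α v))).natDegree < M ∨ g = 0 := by
      by_cases h0 : g = 0
      · exact Or.inr h0
      · left
        rw [natDegree_comp, natDegree_X_add_C, mul_one]
        exact (natDegree_lt_iff_degree_lt h0).2 hg
    rcases hM with hM | hM
    · rw [← ecomp g (α v) (γ w), eval_eq_sum_range' hM,
        Finset.sum_range fun j => (g.comp (X + C (α v))).coeff j * γ w ^ j]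
    · rw [hM]
      simp
  refine (Submodule.finrank_mono (t := LinearMap.range Φ) ?_).trans
    ((LinearMap.finrank_range_le Φ).trans (le_of_eq ?_))
  · rw [Submodule.span_le]
    rintro _ ⟨v, rfl⟩
    rw [hrow v]
    exact LinearMap.mem_range_self Φ _
  · rw [Module.finrank_pi_fintype, Finset.sum_const, Finset.card_univ, Fintype.card_fin,
      smul_eq_mul, mul_comm]

end

section

variable {K : Type} [Field K] [Fintype K] [DecidableEq K] {V : Type} [Fintype V] [DecidableEq V]
  {J : ℕ}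

open Classical in
/-- few functions of a space which isolates the points of `W` are constant on `W` -/
theorem const_card_le2 (U : Submodule K ((Fin J → V) → K)) {N : ℕ}
    {W : Finset (Fin J → V)} (hcard : W.card = N + 1)
    (hiso : ∀ c ∈ W, ∃ h ∈ U, h c = 1 ∧ ∀ x ∈ W, x ≠ c → h x = 0) :
    Fintype.card K ^ N * ((univ.filter fun g => g ∈ U).filter fun g => ∃ t, ∀ c ∈ W, g c = t).card ≤
      (univ.filter fun g => g ∈ U).card := by
  obtain ⟨c₀, hc₀⟩ : W.Nonempty := by
    rw [← Finset.card_pos]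
    omega
  have hiso' : ∀ c : ↥(W.erase c₀), ∃ h ∈ U, h c = 1 ∧ ∀ x ∈ W, x ≠ c → h x = 0 := fun c =>
    hiso c (Finset.mem_of_mem_erase c.2)
  choose G hG1 hG2 hG3 using hiso'
  have hc : Fintype.card K ^ N * ((univ.filter fun g => g ∈ U).filter
      fun g => ∃ t, ∀ c ∈ W, g c = t).card =
      ((univ : Finset (↥(W.erase c₀) → K)) ×ˢ
        ((univ.filter fun g => g ∈ U).filter fun g => ∃ t, ∀ c ∈ W, g c = t)).card := by
    rw [Finset.card_product, Finset.card_univ, Fintype.card_fun, Fintype.card_coe,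
      Finset.card_erase_of_mem hc₀, hcard, Nat.add_sub_cancel]
  rw [hc]
  have hval0 : ∀ (κ : ↥(W.erase c₀) → K) (g : (Fin J → V) → K),
      (g + ∑ c, κ c • G c) c₀ = g c₀ := by
    intro κ g
    rw [Pi.add_apply, Finset.sum_apply, Finset.sum_eq_zero, add_zero]
    intro c _
    rw [Pi.smul_apply, hG3 c c₀ hc₀ (fun h => (Finset.ne_of_mem_erase c.2) h.symm), smul_zero]
  have hval1 : ∀ (κ : ↥(W.erase c₀) → K) (g : (Fin J → V) → K) (c : ↥(W.erase c₀)),
      (g + ∑ c, κ c • G c) c = g c + κ c := by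
    intro κ g c
    rw [Pi.add_apply, Finset.sum_apply, Finset.sum_eq_single c]
    · rw [Pi.smul_apply, hG2, smul_eq_mul, mul_one]
    · intro c' _ hne
      rw [Pi.smul_apply, hG3 c' c (Finset.mem_of_mem_erase c.2)
        (fun h => hne (Subtype.ext h.symm)), smul_zero]
    · intro h
      exact absurd (Finset.mem_univ _) h
  refine Finset.card_le_card_of_injOn (fun x => x.2 + ∑ c, x.1 c • G c) ?_ ?_
  · rintro ⟨κ, g⟩ hx
    rw [Finset.mem_coe, Finset.mem_product, Finset.mem_filter, Finset.mem_filter] at hx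
    rw [Finset.mem_coe, Finset.mem_filter]
    exact ⟨Finset.mem_univ _, Submodule.add_mem _ hx.2.1.2
      (Submodule.sum_mem _ fun c _ => Submodule.smul_mem _ _ (hG1 c))⟩
  · rintro ⟨κ, g⟩ hx ⟨κ', g'⟩ hx' heq
    rw [Finset.mem_coe, Finset.mem_product, Finset.mem_filter] at hx hx'
    obtain ⟨-, -, t, ht⟩ := hx
    obtain ⟨-, -, t', ht'⟩ := hx'
    simp only at heq ht ht'
    have e0 := congrFun heq c₀
    rw [hval0, hval0, ht c₀ hc₀, ht' c₀ hc₀] at e0
    have e1 : κ = κ' := by
      funext c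
      have h1 := congrFun heq c
      have hcW := Finset.mem_of_mem_erase c.2
      rw [hval1, hval1, ht _ hcW, ht' _ hcW, e0] at h1
      exact add_left_cancel h1
    subst e1
    exact Prod.ext rfl (add_right_cancel heq)

/-- **A good function**: every level set has at most `2 J + 1` points in every cube. -/
theorem exists_good2 {B : Finset V} (hBq : B.card ≤ Fintype.card K)
    (U : Submodule K ((Fin J → V) → K))
    (hiso : ∀ W : Finset (Fin J → V), (∀ c ∈ W, ∀ i, c i ∈ B) → W.card = 2 * J + 2 →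
      ∀ c ∈ W, ∃ h ∈ U, h c = 1 ∧ ∀ x ∈ W, x ≠ c → h x = 0)
    (hq : 2 ^ (2 * J * (J + 1)) < Fintype.card K) :
    ∃ g ∈ U, ∀ p p' : Fin J → V, (∀ i, p i ∈ B) → (∀ i, p' i ∈ B) → ∀ t,
      ((cub p p').filter fun c => g c = t).card ≤ 2 * J + 1 := by
  classical
  by_contra hcon
  push Not at hcon
  set q := Fintype.card K with hqd
  obtain ⟨PU, hPU⟩ : ∃ PU : Finset ((Fin J → V) → K), PU = univ.filter fun g => g ∈ U := ⟨_, rfl⟩
  set I : Finset (((Fin J → V) × (Fin J → V))) :=
    (Fintype.piFinset fun _ => B) ×ˢ (Fintype.piFinset fun _ => B) with hI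
  have hIcard : I.card ≤ q ^ (2 * J) := by
    rw [hI, Finset.card_product, Fintype.card_piFinset, Finset.prod_const, Finset.card_univ,
      Fintype.card_fin, ← pow_add, ← two_mul]
    exact Nat.pow_le_pow_left hBq _
  have hsub : PU ⊆ I.biUnion fun w => (powersetCard (2 * J + 1 + 1) (cub w.1 w.2)).biUnion
      fun W => PU.filter fun g => ∃ t, ∀ c ∈ W, g c = t := by
    intro g hg
    have hgU : g ∈ U := by
      rw [hPU, Finset.mem_filter] at hg
      exact hg.2
    obtain ⟨p, p', hp, hp', t, hlt⟩ := hcon g hgU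
    obtain ⟨W, hW1, hW2⟩ := Finset.exists_subset_card_eq (Nat.succ_le_of_lt hlt)
    rw [Finset.mem_biUnion]
    refine ⟨(p, p'), ?_, ?_⟩
    · rw [hI, Finset.mem_product, Fintype.mem_piFinset, Fintype.mem_piFinset]
      exact ⟨hp, hp'⟩
    · rw [Finset.mem_biUnion]
      refine ⟨W, Finset.mem_powersetCard.2 ⟨hW1.trans (Finset.filter_subset _ _), hW2⟩, ?_⟩
      rw [Finset.mem_filter]
      exact ⟨hg, t, fun c hc => (Finset.mem_filter.1 (hW1 hc)).2⟩
  have hpos : 0 < PU.card := by
    apply Finset.card_pos.2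
    refine ⟨0, ?_⟩
    rw [hPU, Finset.mem_filter]
    exact ⟨Finset.mem_univ _, Submodule.zero_mem _⟩
  have h1 : q ^ (2 * J + 1) * PU.card ≤ q ^ (2 * J) * (2 ^ J) ^ (2 * J + 2) * PU.card := by
    calc q ^ (2 * J + 1) * PU.card
        ≤ q ^ (2 * J + 1) * ∑ w ∈ I, ∑ W ∈ powersetCard (2 * J + 1 + 1) (cub w.1 w.2),
            (PU.filter fun g => ∃ t, ∀ c ∈ W, g c = t).card :=
          Nat.mul_le_mul_left _ ((Finset.card_le_card hsub).trans
            (Finset.card_biUnion_le.trans (Finset.sum_le_sum fun w _ => Finset.card_biUnion_le)))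
      _ = ∑ w ∈ I, ∑ W ∈ powersetCard (2 * J + 1 + 1) (cub w.1 w.2),
            q ^ (2 * J + 1) * (PU.filter fun g => ∃ t, ∀ c ∈ W, g c = t).card := by
          rw [Finset.mul_sum]
          simp only [Finset.mul_sum]
      _ ≤ ∑ w ∈ I, ∑ W ∈ powersetCard (2 * J + 1 + 1) (cub w.1 w.2), PU.card := by
          refine Finset.sum_le_sum fun w hw => Finset.sum_le_sum fun W hW => ?_
          rw [hI, Finset.mem_product, Fintype.mem_piFinset, Fintype.mem_piFinset] at hw
          rw [Finset.mem_powersetCard] at hW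
          rw [hPU]
          refine const_card_le2 U hW.2 (hiso W (fun c hc i => ?_) hW.2)
          rcases mem_cub.1 (hW.1 hc) i with h | h
          · rw [h]
            exact hw.1 i
          · rw [h]
            exact hw.2 i
      _ ≤ ∑ _w ∈ I, (2 ^ J) ^ (2 * J + 2) * PU.card := by
          refine Finset.sum_le_sum fun w _ => ?_
          rw [Finset.sum_const, smul_eq_mul]
          refine Nat.mul_le_mul_right _ ?_
          rw [Finset.card_powersetCard]
          refine (Nat.choose_le_pow _ _).trans (Nat.pow_le_pow_left ?_ _)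
          unfold cub
          rw [Fintype.card_piFinset]
          calc ∏ i, ({w.1 i, w.2 i} : Finset V).card ≤ ∏ _i : Fin J, 2 :=
                Finset.prod_le_prod' fun i _ => Finset.card_le_two
            _ = 2 ^ J := by rw [Finset.prod_const, Finset.card_univ, Fintype.card_fin]
      _ = I.card * ((2 ^ J) ^ (2 * J + 2) * PU.card) := by
          rw [Finset.sum_const, smul_eq_mul]
      _ ≤ q ^ (2 * J) * ((2 ^ J) ^ (2 * J + 2) * PU.card) :=
          Nat.mul_le_mul_right _ hIcard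
      _ = q ^ (2 * J) * (2 ^ J) ^ (2 * J + 2) * PU.card := by ring
  have h2 := Nat.le_of_mul_le_mul_right h1 hpos
  have hq0 : 0 < q := lt_of_le_of_lt (Nat.zero_le _) hq
  rw [pow_succ] at h2
  have h3 := Nat.le_of_mul_le_mul_left h2 (Nat.pow_pos hq0)
  rw [← pow_mul] at h3
  have e : J * (2 * J + 2) = 2 * J * (J + 1) := by ring
  rw [e] at h3
  omega

end

section

variable {n L J : ℕ} {K : Type} [Field K] [Fintype K] [DecidableEq K]

/-- **Support rank of a level set.** -/
theorem rk_fn_of [CharP K 2] {m R : ℕ} (hL : 1 ≤ L) {B : Finset (Fin (2 ^ L))}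
    {g : (Fin J → Fin (2 ^ L)) → K} (t : K) (D : Finset (Fin n))
    (i₀ : Fin J) (hD : ∀ i : Fin J, i ≠ i₀ → pb n L i ⊆ D ∨ Disjoint (pb n L i) D)
    (hR : ∀ v₀, rk (fun w : Fin n → Fin 2 =>
      (g - t • 1) (Function.update (fun i => bk L J i w) i₀ v₀)) D ≤ R) :
    rk (fn n L J m B g t) D ≤ B.card * (1 + R ^ m) := by
  classical
  set P : (Fin J → Fin (2 ^ L)) → K := g - t • 1 with hP
  have e : fn n L J m B g t = (fun w : Fin n → Fin 2 => if value w < (2 ^ L) ^ J then (1 : K)
      else 0) * ∑ v₀ ∈ B, (fun w : Fin n → Fin 2 => if bk L J i₀ w = v₀ then (1 : K) else 0) *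
        ((∏ i ∈ univ.erase i₀, fun w : Fin n → Fin 2 => if bk L J i w ∈ B then (1 : K) else 0) *
          (1 - (fun w : Fin n → Fin 2 =>
            P (Function.update (fun i => bk L J i w) i₀ v₀)) ^ (2 ^ m - 1))) := by
    funext w
    unfold fn
    rw [Pi.mul_apply, Finset.sum_apply]
    congr 1
    simp only [Pi.mul_apply, Pi.sub_apply, Pi.one_apply, Pi.pow_apply, Finset.prod_apply]
    by_cases hB : bk L J i₀ w ∈ B
    · rw [Finset.sum_eq_single (bk L J i₀ w)]
      · have h1 : Function.update (fun i => bk L J i w) i₀ (bk L J i₀ w) =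
            fun i => bk L J i w := Function.update_eq_self i₀ _
        rw [if_pos rfl, one_mul, h1, ← Finset.mul_prod_erase univ _ (Finset.mem_univ i₀),
          if_pos hB, one_mul]
        congr 3
        rw [hP, Pi.sub_apply, Pi.smul_apply, Pi.one_apply, smul_eq_mul, mul_one]
      · intro v _ hne
        rw [if_neg fun h => hne h.symm, zero_mul]
      · intro h
        exact absurd hB h
    · rw [Finset.prod_eq_zero (Finset.mem_univ i₀) (if_neg hB), zero_mul]
      symm
      apply Finset.sum_eq_zero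
      intro v hv
      rw [if_neg, zero_mul]
      intro h
      rw [h] at hB
      exact hB hv
  rw [e]
  calc rk _ D ≤ 1 * ∑ v₀ ∈ B, 1 * (1 * (1 + R ^ m)) := by
        refine (rk_mul _ _ _).trans (Nat.mul_le_mul (rk_rest D hL) ((gk_sum _ _ _).trans
          (Finset.sum_le_sum fun v₀ _ => ?_)))
        refine (rk_mul _ _ _).trans (Nat.mul_le_mul (rk_block hL i₀ v₀ D)
          ((rk_mul _ _ _).trans (Nat.mul_le_mul ?_ ?_)))
        · refine (gk_prod _ _ _).trans ?_
          calc ∏ i ∈ univ.erase i₀, rk (fun w : Fin n → Fin 2 =>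
                if bk L J i w ∈ B then (1 : K) else 0) D ≤ ∏ _i ∈ univ.erase i₀, 1 := by
                refine Finset.prod_le_prod' fun i hi => ?_
                refine gk_dep_one _ (pb n L i) D (fun w w' h => ?_)
                  (hD i (Finset.ne_of_mem_erase hi))
                rw [bk_congr i w w' h]
            _ = 1 := Finset.prod_const_one
        · refine (gk_one_sub _ _).trans (Nat.add_le_add_left ?_ 1)
          exact (gk_pow _ _ _).trans (Nat.pow_le_pow_left (hR v₀) _)
    _ = B.card * (1 + R ^ m) := by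
        rw [Finset.sum_const, smul_eq_mul]
        ring

end

/-- **The block set, with a smaller rank.** -/
theorem block_set2 {n L J m : ℕ} {S₀ : Finset ℕ} (hJ : 1 ≤ J) (hL : 1 ≤ L) (hn : J * L ≤ n)
    (hS1 : ∀ a ∈ S₀, 2 * a < 2 ^ L) (hS2 : ∀ N, rpF S₀ N ≤ 2) (hm : S₀.card ≤ 2 ^ m)
    (hm1 : 1 ≤ m) (hq : 2 ^ (2 * J * (J + 1)) < 2 ^ m) :
    ∃ (A : Set ℕ) (S : Finset (Fin n → Fin 2)) (T : Helper84.TN.Tree (Fin n)),
      T.Proper ∧ T.set = Finset.univ ∧
      (∀ D ∈ T.blocks, SuppRank S D (S₀.card * (1 + (J * (2 * J + 2)) ^ m))) ∧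
      (∀ v, v ∈ S ↔ Helper84.TN.value v ∈ A) ∧ (∀ a ∈ A, a < 2 ^ (J * L)) ∧
      S₀.card ^ J ≤ 2 ^ m * S.card ∧ ∀ N, rep A N ≤ 2 * J + 1 := by
  classical
  haveI : Fact (Nat.Prime 2) := ⟨Nat.prime_two⟩
  haveI : NeZero J := ⟨by omega⟩
  let K := GaloisField 2 m
  haveI : Fintype K := Fintype.ofFinite K
  have hcard : Fintype.card K = 2 ^ m := by
    rw [← Nat.card_eq_fintype_card]
    exact GaloisField.card 2 m (by omega)
  let E := FiniteField.Extension K 2 J
  have hfin : Module.finrank K E = J := FiniteField.finrank_extension K 2 J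
  let ω : Fin J → E := fun i => (Module.finBasisOfFinrankEq K E hfin) i
  have hω : LinearIndependent K ω := (Module.finBasisOfFinrankEq K E hfin).linearIndependent
  obtain ⟨φ, lam, hlam⟩ : ∃ (φ : E →ₗ[K] K) (lam : E), φ lam = 1 := by
    refine ⟨(Module.finBasisOfFinrankEq K E hfin).coord ⟨0, hJ⟩,
      (Module.finBasisOfFinrankEq K E hfin) ⟨0, hJ⟩, ?_⟩
    rw [Module.Basis.coord_apply, Module.Basis.repr_self, Finsupp.single_eq_same]
  set B : Finset (Fin (2 ^ L)) := univ.filter fun v => (v : ℕ) ∈ S₀ with hB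
  have hBmem : ∀ v, v ∈ B ↔ (v : ℕ) ∈ S₀ := by
    intro v
    rw [hB, Finset.mem_filter]
    exact ⟨fun h => h.2, fun h => ⟨Finset.mem_univ _, h⟩⟩
  have hBcard : B.card = S₀.card := by
    refine Finset.card_bij (fun v _ => (v : ℕ)) (fun v hv => (hBmem v).1 hv)
      (fun v _ v' _ h => Fin.ext h) ?_
    intro a ha
    exact ⟨⟨a, by have := hS1 a ha; omega⟩, (hBmem _).2 ha, rfl⟩
  obtain ⟨ψ, hψ⟩ : ∃ ψ : Fin (2 ^ L) → K, Set.InjOn ψ (B : Set (Fin (2 ^ L))) := by
    have h1 : B.card ≤ (univ : Finset K).card := by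
      rw [hBcard, Finset.card_univ, hcard]
      exact hm
    obtain ⟨B', -, hB'⟩ := Finset.exists_subset_card_eq h1
    obtain ⟨e⟩ : Nonempty (B ≃ B') := ⟨Finset.equivOfCardEq hB'.symm⟩
    refine ⟨fun v => if h : v ∈ B then (e ⟨v, h⟩ : K) else 0, ?_⟩
    intro v hv v' hv' h
    rw [Finset.mem_coe] at hv hv'
    simp only [dif_pos hv, dif_pos hv'] at h
    have := e.injective (Subtype.ext h)
    exact congrArg Subtype.val this
  obtain ⟨g, hg, hgood⟩ := exists_good2 (J := J) (B := B) (by rw [hBcard, hcard]; exact hm)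
    (WE φ ψ ω (2 * J + 2))
    (fun W hW hWc c hc => isolateE hlam hψ hω hW (le_of_eq hWc) hc) (by rw [hcard]; exact hq)
  obtain ⟨t, ht⟩ := exists_level (J := J) B g (by rw [hcard]; exact Nat.two_pow_pos m)
  have hn1 : 1 ≤ n := le_trans (Nat.mul_pos hJ hL) hn
  obtain ⟨T, hT1, hT2, hT3⟩ := exists_comb hn1
  set S : Finset (Fin n → Fin 2) := univ.filter fun w => value w ∈ levN (2 ^ L) J B g t with hS
  have hSmem : ∀ w, w ∈ S ↔ value w ∈ levN (2 ^ L) J B g t := by
    intro w
    rw [hS, Finset.mem_filter]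
    exact ⟨fun h => h.2, fun h => ⟨Finset.mem_univ _, h⟩⟩
  have epow : (2 ^ L) ^ J = 2 ^ (J * L) := by rw [← pow_mul, mul_comm L J]
  have hlt : ∀ a ∈ levN (2 ^ L) J B g t, a < 2 ^ (J * L) := by
    rintro a ⟨c, -, rfl⟩
    exact lt_of_lt_of_eq (finFunctionFinEquiv c).2 epow
  refine ⟨levN (2 ^ L) J B g t, S, T, hT1, hT2, fun D hD => ?_, fun v => hSmem v, hlt, ?_,
    fun N => rep_levN (Nat.two_pow_pos L) hS1 hS2 hBmem hgood t N⟩
  · obtain ⟨i₀, hi₀⟩ := comb_cut (L := L) hJ (hT3 D hD)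
    refine ⟨K, inferInstance, fn n L J m B g t, fun w => ?_, ?_⟩
    · rw [fn_ne hcard hm1, hSmem]
    · rw [← hBcard]
      refine rk_fn_of hL t D i₀ hi₀ fun v₀ => ?_
      have h1 : g - t • 1 ∈ WE φ ψ ω (2 * J + 2) :=
        Submodule.sub_mem _ hg (Submodule.smul_mem _ _ (one_mem_WE hlam ψ ω (by omega)))
      have h2 := rk_WE (fun i => pb n L i) (fun i w => bk L J i w)
        (fun i w w' h => bk_congr i w w' h) D i₀ hi₀ v₀ h1
      rw [hfin] at h2
      exact h2
  · rw [← hBcard]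
    refine ht.trans ?_
    rw [hcard]
    refine Nat.mul_le_mul_left _ ?_
    have h1 : ∀ c : Fin J → Fin (2 ^ L), ∃ w : Fin n → Fin 2,
        value w = (finFunctionFinEquiv c : ℕ) := by
      intro c
      apply Helper1.LR.exists_value
      exact (lt_of_lt_of_eq (finFunctionFinEquiv c).2 epow).trans_le
        (Nat.pow_le_pow_right (by norm_num) hn)
    choose W hW using h1
    refine Finset.card_le_card_of_injOn W ?_ ?_
    · intro c hc
      rw [Finset.mem_coe, hSmem, hW]
      exact ⟨c, hc, rfl⟩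
    · intro c _ c' _ h
      have h2 : (finFunctionFinEquiv c : ℕ) = finFunctionFinEquiv c' := by
        rw [← hW c, ← hW c', h]
      exact finFunctionFinEquiv.injective (Fin.ext h2)

end Pool.Agent.Helper29.LS
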