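import Pool.Agent.Helper29.LS.Set

/-!
Sets with a bounded representation function and small support rank along a comb.
-/

open Finset

namespace Pool.Agent.Helper29.LS

open Pool.Agent.Helper82.CF (rep)
open Pool.Agent.Helper1.TY (rpF exists_sidon)
open Pool.Agent.Helper84.TN (SuppRank)

/-- the statement for given parameters -/
def Has (n M : ℕ) (d R : ℝ) : Prop :=
  ∃ (A : Set ℕ) (S : Finset (Fin n → Fin 2)) (T : Helper84.TN.Tree (Fin n)) (s : ℕ),
    T.Proper ∧ T.set = Finset.univ ∧ (s : ℝ) ≤ Real.exp R ∧ (∀ D ∈ T.blocks, SuppRank S D s) ∧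
    (∀ v, v ∈ S ↔ Helper84.TN.value v ∈ A) ∧ (∀ a ∈ A, a < 2 ^ n) ∧
    (2 : ℝ) ^ (d * n) ≤ S.card ∧ ∀ N, rep A N ≤ M

/-- a Sidon set -/
theorem has_sidon {n M : ℕ} {d R : ℝ} (hM : 2 ≤ M) (hd0 : 0 ≤ d) (hn : 2 ≤ (1 / 2 - d) * n)
    (hR : n * Real.log 2 ≤ R) : Has n M d R := by
  classical
  obtain ⟨S₀, h1, h2, h3⟩ := exists_sidon (q := 2) (l := n) le_rfl hd0 hn
  have hn1 : 1 ≤ n := by
    rcases Nat.eq_zero_or_pos n with h0 | h0
    · rw [h0, Nat.cast_zero, mul_zero] at hn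
      norm_num at hn
    · exact h0
  obtain ⟨T, hT1, hT2, -⟩ := Helper1.LR.exists_comb hn1
  have hlt : ∀ a ∈ (S₀ : Set ℕ), a < 2 ^ n := by
    intro a ha
    have := h1 a (Finset.mem_coe.1 ha)
    omega
  refine ⟨S₀, univ.filter fun v => Helper84.TN.value v ∈ (S₀ : Set ℕ), T, 2 ^ n, hT1, hT2, ?_,
    fun D _ => ?_, fun v => ?_, hlt, ?_, fun N => ?_⟩
  · push_cast
    have : (2 : ℝ) ^ n = Real.exp (n * Real.log 2) := by
      rw [mul_comm, Real.exp_mul, Real.exp_log (by norm_num), Real.rpow_natCast]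
    rw [this]
    exact Real.exp_le_exp.2 hR
  · refine ⟨ZMod 2, inferInstance, fun w => if w ∈ (univ.filter fun v : Fin n → Fin 2 =>
      Helper84.TN.value v ∈ (S₀ : Set ℕ)) then 1 else 0, fun w => ?_, ?_⟩
    · by_cases h : w ∈ (univ.filter fun v : Fin n → Fin 2 =>
        Helper84.TN.value v ∈ (S₀ : Set ℕ))
      · simp only [if_pos h]
        exact ⟨fun _ => h, fun _ => one_ne_zero⟩
      · simp only [if_neg h]
        exact ⟨fun h' => absurd rfl h', fun h' => absurd h' h⟩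
    · refine (Helper1.LR.rk_dep _ univ D fun w w' h => ?_).trans ?_
      · rw [show w = w' from funext fun i => h i (Finset.mem_univ i)]
      · rw [Finset.card_univ, Fintype.card_fin]
  · rw [Finset.mem_filter]
    exact ⟨fun h => h.2, fun h => ⟨Finset.mem_univ _, h⟩⟩
  · have h4 : (2 : ℝ) ^ (d * n) ≤ S₀.card := by exact_mod_cast h3
    refine h4.trans ?_
    have h5 : S₀.card ≤ (univ.filter fun v : Fin n → Fin 2 =>
        Helper84.TN.value v ∈ (S₀ : Set ℕ)).card := by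
      have hex : ∀ a : ℕ, ∃ w : Fin n → Fin 2, a ∈ S₀ → Helper1.LR.value w = a := by
        intro a
        by_cases ha : a ∈ S₀
        · obtain ⟨w, hw⟩ := Helper1.LR.exists_value (hlt a (Finset.mem_coe.2 ha))
          exact ⟨w, fun _ => hw⟩
        · exact ⟨0, fun h => absurd h ha⟩
      choose W hW using hex
      refine Finset.card_le_card_of_injOn W ?_ ?_
      · intro a ha
        rw [Finset.mem_coe, Finset.mem_filter]
        refine ⟨Finset.mem_univ _, ?_⟩
        have h6 : Helper84.TN.value (W a) = a := hW a ha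
        rw [h6]
        exact ha
      · intro a ha a' ha' h
        rw [← hW a ha, ← hW a' ha', h]
    exact_mod_cast h5
  · rw [Helper82.CF.rep] at *
    refine le_trans (le_of_eq ?_) ((h2 N).trans hM)
    unfold rpF
    rw [← Set.ncard_coe_finset]
    congr 1
    ext p
    rw [Finset.mem_coe, Finset.mem_filter, Finset.mem_product]
    constructor
    · rintro ⟨h1, h2, h3⟩
      exact ⟨⟨h1, h2⟩, h3⟩
    · rintro ⟨⟨h1, h2⟩, h3⟩
      exact ⟨h1, h2, h3⟩

/-- many blocks -/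
theorem has_blocks {n M J : ℕ} {d δ : ℝ} (hd0 : 0 ≤ d) (hδ : d < δ) (hδ2 : δ < 1 / 2)
    (hδ4 : 1 / 4 ≤ δ) (hJ : 1 ≤ J) (hJM : 2 * J + 1 ≤ M) (hMJ : M ≤ 4 * J)
    (hJ0 : 2 * δ ≤ (δ - d) * J) (hL0 : 4 / (δ - d) ≤ (n / J : ℕ))
    (hL1 : 2 ≤ (1 / 2 - δ) * (n / J : ℕ)) (hL2 : 16 * J * (J + 1) ≤ n / J) :
    Has n M d (100 * (n / M) * Real.log M ^ 2) := by
  classical
  obtain ⟨L, hL⟩ : ∃ L, L = n / J := ⟨_, rfl⟩
  rw [← hL] at hL0 hL1 hL2
  have hLpos : 1 ≤ L := by
    have : 1 ≤ 16 * J * (J + 1) := Nat.mul_pos (by omega) (by omega)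
    omega
  have hJL : J * L ≤ n := by
    rw [hL]
    exact Nat.mul_div_le n J
  have hnJ : n ≤ J * L + J := by
    have := Nat.div_add_mod n J
    have h2 := Nat.mod_lt n hJ
    rw [← hL] at this
    omega
  obtain ⟨S₀, h1, h2, h3⟩ := exists_sidon (q := 2) (l := L) le_rfl (by linarith : (0:ℝ) ≤ δ) hL1
  have h3' : (2 : ℝ) ^ (δ * L) ≤ S₀.card := by exact_mod_cast h3
  have hLr : (0 : ℝ) ≤ L := Nat.cast_nonneg _
  have hJr : (1 : ℝ) ≤ J := by exact_mod_cast hJ
  -- `|S₀|` is large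
  have hbig : (2 : ℝ) ^ (2 * J * (J + 1) + 1 : ℕ) ≤ S₀.card := by
    refine le_trans ?_ h3'
    rw [← Real.rpow_natCast]
    apply Real.rpow_le_rpow_of_exponent_le (by norm_num)
    have h4 : ((16 * J * (J + 1) : ℕ) : ℝ) ≤ L := by exact_mod_cast hL2
    push_cast at h4 ⊢
    nlinarith
  have hbigN : 2 ^ (2 * J * (J + 1) + 1) ≤ S₀.card := by exact_mod_cast hbig
  have hS2 : 2 ≤ S₀.card := by
    have : 2 ^ 1 ≤ 2 ^ (2 * J * (J + 1) + 1) := Nat.pow_le_pow_right (by norm_num) (by omega)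
    omega
  obtain ⟨m, hm⟩ : ∃ m, m = Nat.clog 2 S₀.card := ⟨_, rfl⟩
  have hm1 : S₀.card ≤ 2 ^ m := by
    rw [hm]
    exact Nat.le_pow_clog (by norm_num) _
  have hm0 : 1 ≤ m := by
    rw [hm]
    exact Nat.clog_pos (by norm_num) hS2
  have hm2 : 2 ^ m ≤ 2 * S₀.card := by
    have h5 : 2 ^ (m - 1) < S₀.card := by
      rw [hm]
      exact Nat.pow_pred_clog_lt_self (by norm_num) (by omega)
    have h6 : 2 ^ m = 2 * 2 ^ (m - 1) := by
      rw [← pow_succ']
      congr 1
      omega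
    omega
  have hS0L : S₀.card ≤ 2 ^ L := by
    have h5 : S₀ ⊆ range (2 ^ L) := by
      intro a ha
      rw [Finset.mem_range]
      have := h1 a ha
      omega
    have := Finset.card_le_card h5
    rwa [Finset.card_range] at this
  have hmL : m ≤ L := by
    rw [hm]
    exact Nat.clog_le_of_le_pow hS0L
  have hq : 2 ^ (2 * J * (J + 1)) < 2 ^ m := by
    have h5 : 2 ^ (2 * J * (J + 1)) < 2 ^ (2 * J * (J + 1) + 1) :=
      Nat.pow_lt_pow_right (by norm_num) (by omega)
    omega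
  obtain ⟨dd, hdd⟩ : ∃ dd, dd = Nat.clog 2 (2 * J + 2) := ⟨_, rfl⟩
  have hdd1 : 2 * J + 1 < 2 ^ dd := by
    have h5 : 2 * J + 2 ≤ 2 ^ dd := by
      rw [hdd]
      exact Nat.le_pow_clog (by norm_num) _
    omega
  have hdd2 : 2 ^ dd ≤ 2 * (2 * J + 2) := by
    have h5 : 2 ^ (dd - 1) < 2 * J + 2 := by
      rw [hdd]
      exact Nat.pow_pred_clog_lt_self (b := 2) (x := 2 * J + 2) (by norm_num) (by omega)
    have h5' : 1 ≤ dd := by
      rw [hdd]
      exact Nat.clog_pos (by norm_num) (by omega)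
    have h6 : 2 ^ dd = 2 * 2 ^ (dd - 1) := by
      rw [← pow_succ']
      congr 1
      omega
    omega
  obtain ⟨A, S, T, hT1, hT2, hsr, hmem, hlt, hcard, hrep⟩ :=
    block_set (n := n) hJ hLpos hJL h1 h2 hm1 hm0 hq hdd1
  refine ⟨A, S, T, _, hT1, hT2, ?_, hsr, hmem, ?_, ?_, fun N => (hrep N).trans hJM⟩
  · -- the rank
    have hM3 : 3 ≤ M := by omega
    have hMr : (3 : ℝ) ≤ M := by exact_mod_cast hM3
    have hlog2 : 0.69 < Real.log 2 := by
      have := Real.log_two_gt_d9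
      linarith
    have hlogM : Real.log 2 ≤ Real.log M := Real.log_le_log (by norm_num) (by linarith)
    have hlogM1 : 1 ≤ Real.log M := by
      have h5 : Real.exp 1 < 3 := by
        have := Real.exp_one_lt_d9
        linarith
      rw [← Real.log_exp 1]
      exact Real.log_le_log (Real.exp_pos 1) (h5.le.trans hMr)
    have h4 : ((S₀.card * (1 + (J + 1) ^ (dd * m)) : ℕ) : ℝ) ≤
        Real.exp (m * Real.log 2 + Real.log 2 + dd * m * Real.log (J + 1)) := by
      have e1 : Real.exp (m * Real.log 2) = 2 ^ m := by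
        rw [mul_comm, Real.exp_mul, Real.exp_log (by norm_num), Real.rpow_natCast]
      have e2 : Real.exp (dd * m * Real.log (J + 1)) = ((J : ℝ) + 1) ^ (dd * m) := by
        rw [mul_comm, Real.exp_mul, Real.exp_log (by positivity)]
        have : ((dd : ℝ) * m) = ((dd * m : ℕ) : ℝ) := by push_cast; ring
        rw [this, Real.rpow_natCast]
      rw [Real.exp_add, Real.exp_add, e1, e2, Real.exp_log (by norm_num)]
      push_cast
      have h5 : (S₀.card : ℝ) ≤ 2 ^ m := by exact_mod_cast hm1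
      have h6 : (1 : ℝ) ≤ ((J : ℝ) + 1) ^ (dd * m) := one_le_pow₀ (by linarith)
      calc (S₀.card : ℝ) * (1 + ((J : ℝ) + 1) ^ (dd * m)) ≤
          2 ^ m * (2 * ((J : ℝ) + 1) ^ (dd * m)) := by
            apply mul_le_mul h5 (by linarith) (by positivity) (by positivity)
        _ = 2 ^ m * 2 * ((J : ℝ) + 1) ^ (dd * m) := by ring
    refine h4.trans (Real.exp_le_exp.2 ?_)
    have h5 : (dd : ℝ) * Real.log 2 ≤ 4 * Real.log M := by
      have h6 : ((2 ^ dd : ℕ) : ℝ) ≤ ((2 * (2 * J + 2) : ℕ) : ℝ) := by exact_mod_cast hdd2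
      have h7 : ((2 * (2 * J + 2) : ℕ) : ℝ) ≤ (M : ℝ) ^ 4 := by
        have h8 : (2 * (2 * J + 2) : ℕ) ≤ 2 * (M + 1) := by omega
        have h9 : ((2 * (2 * J + 2) : ℕ) : ℝ) ≤ ((2 * (M + 1) : ℕ) : ℝ) := by exact_mod_cast h8
        push_cast at h9 ⊢
        have h11 : (27 : ℝ) ≤ (M : ℝ) ^ 3 := by
          have := pow_le_pow_left₀ (by norm_num) hMr 3
          linarith
        have h10 : (27 : ℝ) * M ≤ M ^ 4 := by
          have e : (M : ℝ) ^ 4 = M ^ 3 * M := by ring
          rw [e]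
          exact mul_le_mul_of_nonneg_right h11 (by linarith)
        linarith
      have h8 := Real.log_le_log (by positivity) (h6.trans h7)
      push_cast at h8
      rw [Real.log_pow, Real.log_pow] at h8
      push_cast at h8
      exact h8
    have h6 : Real.log (J + 1) ≤ Real.log M := by
      apply Real.log_le_log (by positivity)
      have : J + 1 ≤ M := by omega
      exact_mod_cast this
    have h7 : (m : ℝ) * M ≤ 4 * n := by
      have h8 : m * M ≤ 4 * n := by
        calc m * M ≤ L * (4 * J) := Nat.mul_le_mul hmL hMJ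
          _ = 4 * (J * L) := by ring
          _ ≤ 4 * n := Nat.mul_le_mul_left _ hJL
      exact_mod_cast h8
    have hMpos : (0 : ℝ) < M := by linarith
    have h8 : (m : ℝ) ≤ 4 * (n / M) := by
      rw [← mul_div_assoc, le_div_iff₀ hMpos]
      exact h7
    have hmr : (1 : ℝ) ≤ m := by exact_mod_cast hm0
    have hddr : (0 : ℝ) ≤ dd := Nat.cast_nonneg _
    have h9 : (dd : ℝ) ≤ 6 * Real.log M := by
      have : (dd : ℝ) * 0.69 ≤ dd * Real.log 2 := mul_le_mul_of_nonneg_left hlog2.le hddr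
      linarith
    have hlog21 : Real.log 2 ≤ 1 := by
      have := Real.log_two_lt_d9
      linarith
    have h10 : (dd : ℝ) * m * Real.log (J + 1) ≤ 6 * m * Real.log M ^ 2 := by
      have hJl : 0 ≤ Real.log ((J : ℝ) + 1) := Real.log_nonneg (by linarith)
      calc (dd : ℝ) * m * Real.log (J + 1) ≤ (6 * Real.log M) * m * Real.log M := by
            apply mul_le_mul (mul_le_mul_of_nonneg_right h9 (by linarith)) h6 hJl
            have : 0 ≤ Real.log M := by linarith
            positivity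
        _ = 6 * m * Real.log M ^ 2 := by ring
    have h11 : (1 : ℝ) ≤ Real.log M ^ 2 := by nlinarith
    calc (m : ℝ) * Real.log 2 + Real.log 2 + dd * m * Real.log (J + 1)
        ≤ m * 1 + m * 1 + 6 * m * Real.log M ^ 2 := by
          have : (m : ℝ) * Real.log 2 ≤ m * 1 := mul_le_mul_of_nonneg_left hlog21 (by linarith)
          linarith
      _ ≤ 8 * m * Real.log M ^ 2 := by
          have h12 : (m : ℝ) * 1 ≤ m * Real.log M ^ 2 :=
            mul_le_mul_of_nonneg_left h11 (by linarith)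
          linarith
      _ ≤ 8 * (4 * (n / M)) * Real.log M ^ 2 := by
          apply mul_le_mul_of_nonneg_right _ (by positivity)
          linarith
      _ ≤ 100 * (n / M) * Real.log M ^ 2 := by
          have : (0 : ℝ) ≤ (n / M) * Real.log M ^ 2 := by positivity
          linarith
  · intro a ha
    exact (hlt a ha).trans_le (Nat.pow_le_pow_right (by norm_num) hJL)
  · -- the size
    have h4 : (S₀.card : ℝ) ^ J ≤ 2 * S₀.card * S.card := by
      have h5 : S₀.card ^ J ≤ 2 * S₀.card * S.card :=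
        hcard.trans (Nat.mul_le_mul_right _ hm2)
      exact_mod_cast h5
    have hS0pos : (0 : ℝ) < S₀.card := by exact_mod_cast (by omega : 0 < S₀.card)
    have h5 : (S₀.card : ℝ) ^ (J - 1) ≤ 2 * S.card := by
      have e : (S₀.card : ℝ) ^ J = (S₀.card : ℝ) ^ (J - 1) * S₀.card := by
        rw [← pow_succ]
        congr 1
        omega
      rw [e] at h4
      have h6 : (S₀.card : ℝ) ^ (J - 1) * S₀.card ≤ (2 * S.card) * S₀.card := by linarith
      exact le_of_mul_le_mul_right h6 hS0pos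
    have h6 : (2 : ℝ) ^ (δ * L * ((J - 1 : ℕ) : ℝ)) ≤ (S₀.card : ℝ) ^ (J - 1) := by
      rw [Real.rpow_mul (by norm_num), Real.rpow_natCast]
      exact pow_le_pow_left₀ (by positivity) h3' _
    have h7 : (2 : ℝ) ^ (d * n) * 2 ≤ (2 : ℝ) ^ (δ * L * ((J - 1 : ℕ) : ℝ)) := by
      have e : (2 : ℝ) ^ (d * n) * 2 = (2 : ℝ) ^ (d * n + 1) := by
        rw [Real.rpow_add (by norm_num), Real.rpow_one]
      rw [e]
      apply Real.rpow_le_rpow_of_exponent_le (by norm_num)
      have hnr : (n : ℝ) ≤ J * L + J := by exact_mod_cast hnJ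
      have hJ1 : ((J - 1 : ℕ) : ℝ) = J - 1 := by
        rw [Nat.cast_sub hJ, Nat.cast_one]
      rw [hJ1]
      have hδd : 0 < δ - d := by linarith
      have h8 : 4 ≤ (δ - d) * L := by
        rw [div_le_iff₀ hδd] at hL0
        linarith
      have h9 : d * n ≤ d * (J * L + J) := mul_le_mul_of_nonneg_left hnr hd0
      have h10 : 2 * δ * L ≤ (δ - d) * J * L := mul_le_mul_of_nonneg_right hJ0 hLr
      have h11 : 4 * J ≤ (δ - d) * L * J := mul_le_mul_of_nonneg_right h8 (by linarith)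
      have h12 : d * J ≤ 1 / 2 * J := mul_le_mul_of_nonneg_right (by linarith) (by linarith)
      nlinarith
    linarith

/-- **Bounded representation function.** -/
theorem bounded_all (d : ℝ) (hd0 : 0 ≤ d) (hd : d < 1 / 2) :
    ∃ C : ℝ, 1 ≤ C ∧ ∀ n M : ℕ, 2 ≤ M → C * (M : ℝ) ^ 3 ≤ n →
      Has n M d (C * (n / M) * Real.log M ^ 2) := by
  obtain ⟨δ, hδ⟩ : ∃ δ : ℝ, δ = (d + 1 / 2) / 2 := ⟨_, rfl⟩
  have hδ1 : d < δ := by linarith
  have hδ2 : δ < 1 / 2 := by linarith
  have hδ4 : 1 / 4 ≤ δ := by linarith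
  obtain ⟨J₀, hJ₀⟩ := exists_nat_gt (2 * δ / (δ - d))
  have hδd : 0 < δ - d := by linarith
  obtain ⟨C, hC⟩ : ∃ C : ℝ, C = 100 + 2 / (1 / 2 - δ) + 4 / (δ - d) + 2 / (1 / 2 - d) +
      8 * (J₀ + 1) := ⟨_, rfl⟩
  have hp1 : 0 < 2 / (1 / 2 - δ) := div_pos (by norm_num) (by linarith)
  have hp2 : 0 < 4 / (δ - d) := div_pos (by norm_num) hδd
  have hp3 : 0 < 2 / (1 / 2 - d) := div_pos (by norm_num) (by linarith)
  have hJ₀r : (0 : ℝ) ≤ J₀ := Nat.cast_nonneg _
  have hlog2 : 0.69 < Real.log 2 := by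
    have := Real.log_two_gt_d9
    linarith
  have hlog21 : Real.log 2 ≤ 1 := by
    have := Real.log_two_lt_d9
    linarith
  refine ⟨C, by linarith, ?_⟩
  intro n M hM hn
  have hMr : (2 : ℝ) ≤ M := by exact_mod_cast hM
  have hM3 : (8 : ℝ) ≤ (M : ℝ) ^ 3 := by nlinarith [sq_nonneg ((M : ℝ) - 2)]
  have hCn : C ≤ n := by nlinarith
  have hlogM : Real.log 2 ≤ Real.log M := Real.log_le_log (by norm_num) hMr
  by_cases hsm : M < 2 * J₀ + 3
  · -- a Sidon set
    apply has_sidon hM hd0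
    · have h1 : 2 / (1 / 2 - d) ≤ n := by linarith
      rw [div_le_iff₀ (by linarith)] at h1
      linarith
    · have h1 : (M : ℝ) ≤ 2 * J₀ + 2 := by
        have : M ≤ 2 * J₀ + 2 := by omega
        exact_mod_cast this
      have hMpos : (0 : ℝ) < M := by linarith
      have h2 : (n : ℝ) * M ≤ C * n * Real.log M ^ 2 := by
        have h3 : (0.69 : ℝ) ^ 2 ≤ Real.log M ^ 2 :=
          pow_le_pow_left₀ (by norm_num) (by linarith) 2
        have h4 : (M : ℝ) ≤ C * Real.log M ^ 2 := by nlinarith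
        nlinarith [(Nat.cast_nonneg n : (0 : ℝ) ≤ n)]
      have h3 : (n : ℝ) * 1 ≤ C * (n / M) * Real.log M ^ 2 := by
        have e : C * (n / M) * Real.log M ^ 2 = C * n * Real.log M ^ 2 / M := by ring
        rw [e, le_div_iff₀ hMpos]
        linarith
      have h4 : (n : ℝ) * Real.log 2 ≤ n * 1 :=
        mul_le_mul_of_nonneg_left hlog21 (Nat.cast_nonneg n)
      linarith
  · push Not at hsm
    obtain ⟨J, hJ⟩ : ∃ J, J = (M - 1) / 2 := ⟨_, rfl⟩
    have hJ1 : 1 ≤ J := by omega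
    have hJJ₀ : J₀ ≤ J := by omega
    have hJM : 2 * J + 1 ≤ M := by omega
    have hMJ : M ≤ 4 * J := by omega
    have hJr : (1 : ℝ) ≤ J := by exact_mod_cast hJ1
    -- the length of a block
    have hJMr : 2 * (J : ℝ) ≤ M := by
      have : 2 * J ≤ M := by omega
      exact_mod_cast this
    have hLlow : C * (4 * (J : ℝ) ^ 2) ≤ (n / J : ℕ) := by
      have h1 : C * (8 * (J : ℝ) ^ 3) ≤ n := by
        have h2 : (2 * (J : ℝ)) ^ 3 ≤ (M : ℝ) ^ 3 := pow_le_pow_left₀ (by positivity) hJMr 3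
        have h3 : 8 * (J : ℝ) ^ 3 ≤ (M : ℝ) ^ 3 := by
          calc 8 * (J : ℝ) ^ 3 = (2 * (J : ℝ)) ^ 3 := by ring
            _ ≤ _ := h2
        nlinarith
      have h2 : (n : ℝ) ≤ J * (n / J : ℕ) + J := by
        have h3 : n ≤ J * (n / J) + J := by
          have := Nat.div_add_mod n J
          have h4 := Nat.mod_lt n hJ1
          omega
        exact_mod_cast h3
      have hJ2 : (1 : ℝ) ≤ (J : ℝ) ^ 2 := one_le_pow₀ hJr
      have h3 : J * (C * (4 * (J : ℝ) ^ 2)) ≤ J * (n / J : ℕ) := by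
        have h4 : J * (C * (4 * (J : ℝ) ^ 2)) + J ≤ C * (8 * (J : ℝ) ^ 3) := by
          have h5 : (J : ℝ) ≤ (J : ℝ) ^ 3 := by nlinarith
          have h6 : (1 : ℝ) ≤ 4 * C := by linarith
          have h7 : (J : ℝ) ^ 3 ≤ 4 * C * (J : ℝ) ^ 3 := by
            have : (0 : ℝ) ≤ (J : ℝ) ^ 3 := by positivity
            nlinarith
          have e : J * (C * (4 * (J : ℝ) ^ 2)) = 4 * C * (J : ℝ) ^ 3 := by ring
          rw [e]
          linarith
        linarith
      exact le_of_mul_le_mul_left h3 (by linarith)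
    have hJ2 : (1 : ℝ) ≤ (J : ℝ) ^ 2 := one_le_pow₀ hJr
    have hLC : C ≤ (n / J : ℕ) := by
      refine le_trans ?_ hLlow
      exact le_mul_of_one_le_right (by linarith) (by linarith)
    have h := has_blocks (n := n) (M := M) (J := J) hd0 hδ1 hδ2 hδ4 hJ1 hJM hMJ ?_ ?_ ?_ ?_
    · obtain ⟨A, S, T, s, h1, h2, h3, h4⟩ := h
      refine ⟨A, S, T, s, h1, h2, h3.trans (Real.exp_le_exp.2 ?_), h4⟩
      have h5 : (0 : ℝ) ≤ (n / M) * Real.log M ^ 2 := by positivity
      have h6 : 100 * ((n / M) * Real.log M ^ 2) ≤ C * ((n / M) * Real.log M ^ 2) :=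
        mul_le_mul_of_nonneg_right (by linarith) h5
      linarith
    · have h1 : (J₀ : ℝ) ≤ J := by exact_mod_cast hJJ₀
      have h2 : 2 * δ / (δ - d) ≤ J := by linarith
      rw [div_le_iff₀ hδd] at h2
      linarith
    · linarith
    · have h1 : 2 / (1 / 2 - δ) ≤ (n / J : ℕ) := by linarith
      rw [div_le_iff₀ (by linarith)] at h1
      linarith
    · have h1 : ((16 * J * (J + 1) : ℕ) : ℝ) ≤ (n / J : ℕ) := by
        refine le_trans ?_ hLlow
        push_cast
        nlinarith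
      exact_mod_cast h1

end Pool.Agent.Helper29.LS
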