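import Pool.Agent.Helper29.LS.Bounded
import Pool.Agent.Helper29.LS.Uni

/-!
Sets with a bounded representation function and small support rank along a comb: the bound with
one logarithm.
-/

open Finset

namespace Pool.Agent.Helper29.LS

open Pool.Agent.Helper82.CF (rep)
open Pool.Agent.Helper1.TY (rpF exists_sidon)
open Pool.Agent.Helper84.TN (SuppRank)

/-- many blocks -/
theorem has_blocks2 {n M J : ℕ} {d δ : ℝ} (hd0 : 0 ≤ d) (hδ : d < δ) (hδ2 : δ < 1 / 2)
    (hδ4 : 1 / 4 ≤ δ) (hJ : 1 ≤ J) (hJM : 2 * J + 1 ≤ M) (hMJ : M ≤ 4 * J)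
    (hJ0 : 2 * δ ≤ (δ - d) * J) (hL0 : 4 / (δ - d) ≤ (n / J : ℕ))
    (hL1 : 2 ≤ (1 / 2 - δ) * (n / J : ℕ)) (hL2 : 16 * J * (J + 1) ≤ n / J) :
    Has n M d (100 * (n / M) * Real.log M) := by
  classical
  obtain ⟨L, hL⟩ : ∃ L, L = n / J := ⟨_, rfl⟩
  rw [← hL] at hL0 hL1 hL2
  have hLpos : 1 ≤ L := by
    have : 1 ≤ 16 * J * (J + 1) := Nat.mul_pos (by omega) (by omega)
    omega
  have hJL : J * L ≤ n := by
    rw [hL]
    exact Nat.mul_div_le n J
  have hnJ : n ≤ J * L + J := by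
    have := Nat.div_add_mod n J
    have h2 := Nat.mod_lt n hJ
    rw [← hL] at this
    omega
  obtain ⟨S₀, h1, h2, h3⟩ := exists_sidon (q := 2) (l := L) le_rfl (by linarith : (0:ℝ) ≤ δ) hL1
  have h3' : (2 : ℝ) ^ (δ * L) ≤ S₀.card := by exact_mod_cast h3
  have hLr : (0 : ℝ) ≤ L := Nat.cast_nonneg _
  have hJr : (1 : ℝ) ≤ J := by exact_mod_cast hJ
  -- `|S₀|` is large
  have hbig : (2 : ℝ) ^ (2 * J * (J + 1) + 1 : ℕ) ≤ S₀.card := by
    refine le_trans ?_ h3'
    rw [← Real.rpow_natCast]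
    apply Real.rpow_le_rpow_of_exponent_le (by norm_num)
    have h4 : ((16 * J * (J + 1) : ℕ) : ℝ) ≤ L := by exact_mod_cast hL2
    push_cast at h4 ⊢
    nlinarith
  have hbigN : 2 ^ (2 * J * (J + 1) + 1) ≤ S₀.card := by exact_mod_cast hbig
  have hS2 : 2 ≤ S₀.card := by
    have : 2 ^ 1 ≤ 2 ^ (2 * J * (J + 1) + 1) := Nat.pow_le_pow_right (by norm_num) (by omega)
    omega
  obtain ⟨m, hm⟩ : ∃ m, m = Nat.clog 2 S₀.card := ⟨_, rfl⟩
  have hm1 : S₀.card ≤ 2 ^ m := by
    rw [hm]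
    exact Nat.le_pow_clog (by norm_num) _
  have hm0 : 1 ≤ m := by
    rw [hm]
    exact Nat.clog_pos (by norm_num) hS2
  have hm2 : 2 ^ m ≤ 2 * S₀.card := by
    have h5 : 2 ^ (m - 1) < S₀.card := by
      rw [hm]
      exact Nat.pow_pred_clog_lt_self (by norm_num) (by omega)
    have h6 : 2 ^ m = 2 * 2 ^ (m - 1) := by
      rw [← pow_succ']
      congr 1
      omega
    omega
  have hS0L : S₀.card ≤ 2 ^ L := by
    have h5 : S₀ ⊆ range (2 ^ L) := by
      intro a ha
      rw [Finset.mem_range]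
      have := h1 a ha
      omega
    have := Finset.card_le_card h5
    rwa [Finset.card_range] at this
  have hmL : m ≤ L := by
    rw [hm]
    exact Nat.clog_le_of_le_pow hS0L
  have hq : 2 ^ (2 * J * (J + 1)) < 2 ^ m := by
    have h5 : 2 ^ (2 * J * (J + 1)) < 2 ^ (2 * J * (J + 1) + 1) :=
      Nat.pow_lt_pow_right (by norm_num) (by omega)
    omega
  obtain ⟨A, S, T, hT1, hT2, hsr, hmem, hlt, hcard, hrep⟩ :=
    block_set2 (n := n) hJ hLpos hJL h1 h2 hm1 hm0 hq
  refine ⟨A, S, T, _, hT1, hT2, ?_, hsr, hmem, ?_, ?_, fun N => (hrep N).trans hJM⟩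
  · -- the rank
    have hM3 : 3 ≤ M := by omega
    have hMr : (3 : ℝ) ≤ M := by exact_mod_cast hM3
    have hlog2 : 0.69 < Real.log 2 := by
      have := Real.log_two_gt_d9
      linarith
    have hlogM : Real.log 2 ≤ Real.log M := Real.log_le_log (by norm_num) (by linarith)
    have hlogM1 : 1 ≤ Real.log M := by
      have h5 : Real.exp 1 < 3 := by
        have := Real.exp_one_lt_d9
        linarith
      rw [← Real.log_exp 1]
      exact Real.log_le_log (Real.exp_pos 1) (h5.le.trans hMr)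
    have hMpos : (0 : ℝ) < M := by linarith
    have h4 : ((S₀.card * (1 + (J * (2 * J + 2)) ^ m) : ℕ) : ℝ) ≤
        Real.exp (m * Real.log 2 + Real.log 2 + m * (2 * Real.log M)) := by
      have e1 : Real.exp (m * Real.log 2) = 2 ^ m := by
        rw [mul_comm, Real.exp_mul, Real.exp_log (by norm_num), Real.rpow_natCast]
      have e2 : Real.exp (m * (2 * Real.log M)) = ((M : ℝ) ^ 2) ^ m := by
        rw [mul_comm, Real.exp_mul, mul_comm 2 (Real.log (M : ℝ)), Real.exp_mul,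
          Real.exp_log hMpos, Real.rpow_natCast]
        norm_num
      rw [Real.exp_add, Real.exp_add, e1, e2, Real.exp_log (by norm_num)]
      have h5 : (S₀.card : ℝ) ≤ 2 ^ m := by exact_mod_cast hm1
      have h6 : J * (2 * J + 2) ≤ M ^ 2 := by nlinarith
      have h7 : 1 + (J * (2 * J + 2)) ^ m ≤ 2 * (M ^ 2) ^ m := by
        have h8 : (J * (2 * J + 2)) ^ m ≤ (M ^ 2) ^ m := Nat.pow_le_pow_left h6 m
        have h9 : 1 ≤ (M ^ 2) ^ m := Nat.one_le_pow _ _ (Nat.pow_pos (by omega))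
        omega
      have h8 : ((1 + (J * (2 * J + 2)) ^ m : ℕ) : ℝ) ≤ 2 * ((M : ℝ) ^ 2) ^ m := by
        exact_mod_cast h7
      rw [Nat.cast_mul]
      calc (S₀.card : ℝ) * ((1 + (J * (2 * J + 2)) ^ m : ℕ) : ℝ) ≤
          2 ^ m * (2 * ((M : ℝ) ^ 2) ^ m) :=
            mul_le_mul h5 h8 (Nat.cast_nonneg _) (by positivity)
        _ = 2 ^ m * 2 * ((M : ℝ) ^ 2) ^ m := by ring
    refine h4.trans (Real.exp_le_exp.2 ?_)
    have h7 : (m : ℝ) * M ≤ 4 * n := by
      have h8 : m * M ≤ 4 * n := by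
        calc m * M ≤ L * (4 * J) := Nat.mul_le_mul hmL hMJ
          _ = 4 * (J * L) := by ring
          _ ≤ 4 * n := Nat.mul_le_mul_left _ hJL
      exact_mod_cast h8
    have h8 : (m : ℝ) ≤ 4 * (n / M) := by
      rw [← mul_div_assoc, le_div_iff₀ hMpos]
      exact h7
    have hmr : (1 : ℝ) ≤ m := by exact_mod_cast hm0
    have h9 : (m : ℝ) * Real.log 2 ≤ m * Real.log M :=
      mul_le_mul_of_nonneg_left hlogM (by linarith)
    have h10 : Real.log 2 ≤ m * Real.log M := by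
      have h11 : 1 * Real.log M ≤ m * Real.log M := mul_le_mul_of_nonneg_right hmr (by linarith)
      linarith
    calc (m : ℝ) * Real.log 2 + Real.log 2 + m * (2 * Real.log M) ≤ 4 * (m * Real.log M) := by
          linarith
      _ ≤ 4 * (4 * (n / M) * Real.log M) := by
          have := mul_le_mul_of_nonneg_right h8 (by linarith : (0 : ℝ) ≤ Real.log M)
          linarith
      _ ≤ 100 * (n / M) * Real.log M := by
          have h12 : (0 : ℝ) ≤ (n / M) * Real.log M := by positivity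
          linarith
  · intro a ha
    exact (hlt a ha).trans_le (Nat.pow_le_pow_right (by norm_num) hJL)
  · -- the size
    have h4 : (S₀.card : ℝ) ^ J ≤ 2 * S₀.card * S.card := by
      have h5 : S₀.card ^ J ≤ 2 * S₀.card * S.card :=
        hcard.trans (Nat.mul_le_mul_right _ hm2)
      exact_mod_cast h5
    have hS0pos : (0 : ℝ) < S₀.card := by exact_mod_cast (by omega : 0 < S₀.card)
    have h5 : (S₀.card : ℝ) ^ (J - 1) ≤ 2 * S.card := by
      have e : (S₀.card : ℝ) ^ J = (S₀.card : ℝ) ^ (J - 1) * S₀.card := by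
        rw [← pow_succ]
        congr 1
        omega
      rw [e] at h4
      have h6 : (S₀.card : ℝ) ^ (J - 1) * S₀.card ≤ (2 * S.card) * S₀.card := by linarith
      exact le_of_mul_le_mul_right h6 hS0pos
    have h6 : (2 : ℝ) ^ (δ * L * ((J - 1 : ℕ) : ℝ)) ≤ (S₀.card : ℝ) ^ (J - 1) := by
      rw [Real.rpow_mul (by norm_num), Real.rpow_natCast]
      exact pow_le_pow_left₀ (by positivity) h3' _
    have h7 : (2 : ℝ) ^ (d * n) * 2 ≤ (2 : ℝ) ^ (δ * L * ((J - 1 : ℕ) : ℝ)) := by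
      have e : (2 : ℝ) ^ (d * n) * 2 = (2 : ℝ) ^ (d * n + 1) := by
        rw [Real.rpow_add (by norm_num), Real.rpow_one]
      rw [e]
      apply Real.rpow_le_rpow_of_exponent_le (by norm_num)
      have hnr : (n : ℝ) ≤ J * L + J := by exact_mod_cast hnJ
      have hJ1 : ((J - 1 : ℕ) : ℝ) = J - 1 := by
        rw [Nat.cast_sub hJ, Nat.cast_one]
      rw [hJ1]
      have hδd : 0 < δ - d := by linarith
      have h8 : 4 ≤ (δ - d) * L := by
        rw [div_le_iff₀ hδd] at hL0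
        linarith
      have h9 : d * n ≤ d * (J * L + J) := mul_le_mul_of_nonneg_left hnr hd0
      have h10 : 2 * δ * L ≤ (δ - d) * J * L := mul_le_mul_of_nonneg_right hJ0 hLr
      have h11 : 4 * J ≤ (δ - d) * L * J := mul_le_mul_of_nonneg_right h8 (by linarith)
      have h12 : d * J ≤ 1 / 2 * J := mul_le_mul_of_nonneg_right (by linarith) (by linarith)
      nlinarith
    linarith

/-- **Bounded representation function.** -/
theorem bounded_all2 (d : ℝ) (hd0 : 0 ≤ d) (hd : d < 1 / 2) :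
    ∃ C : ℝ, 1 ≤ C ∧ ∀ n M : ℕ, 2 ≤ M → C * (M : ℝ) ^ 3 ≤ n →
      Has n M d (C * (n / M) * Real.log M) := by
  obtain ⟨δ, hδ⟩ : ∃ δ : ℝ, δ = (d + 1 / 2) / 2 := ⟨_, rfl⟩
  have hδ1 : d < δ := by linarith
  have hδ2 : δ < 1 / 2 := by linarith
  have hδ4 : 1 / 4 ≤ δ := by linarith
  obtain ⟨J₀, hJ₀⟩ := exists_nat_gt (2 * δ / (δ - d))
  have hδd : 0 < δ - d := by linarith
  obtain ⟨C, hC⟩ : ∃ C : ℝ, C = 100 + 2 / (1 / 2 - δ) + 4 / (δ - d) + 2 / (1 / 2 - d) +
      8 * (J₀ + 1) := ⟨_, rfl⟩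
  have hp1 : 0 < 2 / (1 / 2 - δ) := div_pos (by norm_num) (by linarith)
  have hp2 : 0 < 4 / (δ - d) := div_pos (by norm_num) hδd
  have hp3 : 0 < 2 / (1 / 2 - d) := div_pos (by norm_num) (by linarith)
  have hJ₀r : (0 : ℝ) ≤ J₀ := Nat.cast_nonneg _
  have hlog2 : 0.69 < Real.log 2 := by
    have := Real.log_two_gt_d9
    linarith
  have hlog21 : Real.log 2 ≤ 1 := by
    have := Real.log_two_lt_d9
    linarith
  refine ⟨C, by linarith, ?_⟩
  intro n M hM hn
  have hMr : (2 : ℝ) ≤ M := by exact_mod_cast hM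
  have hM3 : (8 : ℝ) ≤ (M : ℝ) ^ 3 := by nlinarith [sq_nonneg ((M : ℝ) - 2)]
  have hCn : C ≤ n := by nlinarith
  have hlogM : Real.log 2 ≤ Real.log M := Real.log_le_log (by norm_num) hMr
  by_cases hsm : M < 2 * J₀ + 3
  · -- a Sidon set
    apply has_sidon hM hd0
    · have h1 : 2 / (1 / 2 - d) ≤ n := by linarith
      rw [div_le_iff₀ (by linarith)] at h1
      linarith
    · have h1 : (M : ℝ) ≤ 2 * J₀ + 2 := by
        have : M ≤ 2 * J₀ + 2 := by omega
        exact_mod_cast this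
      have hMpos : (0 : ℝ) < M := by linarith
      have h2 : (n : ℝ) * M ≤ C * n * Real.log M := by
        have h4 : (M : ℝ) ≤ C * Real.log M := by nlinarith
        nlinarith [(Nat.cast_nonneg n : (0 : ℝ) ≤ n)]
      have h3 : (n : ℝ) * 1 ≤ C * (n / M) * Real.log M := by
        have e : C * (n / M) * Real.log M = C * n * Real.log M / M := by ring
        rw [e, le_div_iff₀ hMpos]
        linarith
      have h4 : (n : ℝ) * Real.log 2 ≤ n * 1 :=
        mul_le_mul_of_nonneg_left hlog21 (Nat.cast_nonneg n)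
      linarith
  · push Not at hsm
    obtain ⟨J, hJ⟩ : ∃ J, J = (M - 1) / 2 := ⟨_, rfl⟩
    have hJ1 : 1 ≤ J := by omega
    have hJJ₀ : J₀ ≤ J := by omega
    have hJM : 2 * J + 1 ≤ M := by omega
    have hMJ : M ≤ 4 * J := by omega
    have hJr : (1 : ℝ) ≤ J := by exact_mod_cast hJ1
    -- the length of a block
    have hJMr : 2 * (J : ℝ) ≤ M := by
      have : 2 * J ≤ M := by omega
      exact_mod_cast this
    have hLlow : C * (4 * (J : ℝ) ^ 2) ≤ (n / J : ℕ) := by
      have h1 : C * (8 * (J : ℝ) ^ 3) ≤ n := by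
        have h2 : (2 * (J : ℝ)) ^ 3 ≤ (M : ℝ) ^ 3 := pow_le_pow_left₀ (by positivity) hJMr 3
        have h3 : 8 * (J : ℝ) ^ 3 ≤ (M : ℝ) ^ 3 := by
          calc 8 * (J : ℝ) ^ 3 = (2 * (J : ℝ)) ^ 3 := by ring
            _ ≤ _ := h2
        nlinarith
      have h2 : (n : ℝ) ≤ J * (n / J : ℕ) + J := by
        have h3 : n ≤ J * (n / J) + J := by
          have := Nat.div_add_mod n J
          have h4 := Nat.mod_lt n hJ1
          omega
        exact_mod_cast h3
      have hJ2 : (1 : ℝ) ≤ (J : ℝ) ^ 2 := one_le_pow₀ hJr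
      have h3 : J * (C * (4 * (J : ℝ) ^ 2)) ≤ J * (n / J : ℕ) := by
        have h4 : J * (C * (4 * (J : ℝ) ^ 2)) + J ≤ C * (8 * (J : ℝ) ^ 3) := by
          have h5 : (J : ℝ) ≤ (J : ℝ) ^ 3 := by nlinarith
          have h6 : (1 : ℝ) ≤ 4 * C := by linarith
          have h7 : (J : ℝ) ^ 3 ≤ 4 * C * (J : ℝ) ^ 3 := by
            have : (0 : ℝ) ≤ (J : ℝ) ^ 3 := by positivity
            nlinarith
          have e : J * (C * (4 * (J : ℝ) ^ 2)) = 4 * C * (J : ℝ) ^ 3 := by ring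
          rw [e]
          linarith
        linarith
      exact le_of_mul_le_mul_left h3 (by linarith)
    have hJ2 : (1 : ℝ) ≤ (J : ℝ) ^ 2 := one_le_pow₀ hJr
    have hLC : C ≤ (n / J : ℕ) := by
      refine le_trans ?_ hLlow
      exact le_mul_of_one_le_right (by linarith) (by linarith)
    have h := has_blocks2 (n := n) (M := M) (J := J) hd0 hδ1 hδ2 hδ4 hJ1 hJM hMJ ?_ ?_ ?_ ?_
    · obtain ⟨A, S, T, s, h1, h2, h3, h4⟩ := h
      refine ⟨A, S, T, s, h1, h2, h3.trans (Real.exp_le_exp.2 ?_), h4⟩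
      have h5 : (0 : ℝ) ≤ (n / M) * Real.log M := by positivity
      have h6 : 100 * ((n / M) * Real.log M) ≤ C * ((n / M) * Real.log M) :=
        mul_le_mul_of_nonneg_right (by linarith) h5
      linarith
    · have h1 : (J₀ : ℝ) ≤ J := by exact_mod_cast hJJ₀
      have h2 : 2 * δ / (δ - d) ≤ J := by linarith
      rw [div_le_iff₀ hδd] at h2
      linarith
    · linarith
    · have h1 : 2 / (1 / 2 - δ) ≤ (n / J : ℕ) := by linarith
      rw [div_le_iff₀ (by linarith)] at h1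
      linarith
    · have h1 : ((16 * J * (J + 1) : ℕ) : ℝ) ≤ (n / J : ℕ) := by
        refine le_trans ?_ hLlow
        push_cast
        nlinarith
      exact_mod_cast h1

end Pool.Agent.Helper29.LS
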