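import Pool.Agent.Helper29.LS.Alg
import Pool.Agent.Helper1.TY.Sharp

/-!
Numbers with prescribed blocks: the representation function of a level set.
-/

open Finset

namespace Pool.Agent.Helper29.LS

open Pool.Agent.Helper82.CF (rep)
open Pool.Agent.Helper1.TY (rpF)

/-- two representations in a set with at most two ordered representations -/
theorem two_reps {S : Finset ℕ} (hS : ∀ N, rpF S N ≤ 2) {x y u v : ℕ} (hx : x ∈ S) (hy : y ∈ S)
    (hu : u ∈ S) (hv : v ∈ S) (h : u + v = x + y) : u = x ∨ u = y := by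
  by_contra hcon
  push Not at hcon
  obtain ⟨h1, h2⟩ := hcon
  have h3 := hS (x + y)
  unfold rpF at h3
  have key : ∀ a b c : ℕ × ℕ, a ≠ b → a ≠ c → b ≠ c →
      a ∈ (S ×ˢ S).filter (fun q => q.1 + q.2 = x + y) →
      b ∈ (S ×ˢ S).filter (fun q => q.1 + q.2 = x + y) →
      c ∈ (S ×ˢ S).filter (fun q => q.1 + q.2 = x + y) → False := by
    intro a b c hab hac hbc ha hb hc
    have h4 : ({a, b, c} : Finset (ℕ × ℕ)) ⊆ (S ×ˢ S).filter (fun q => q.1 + q.2 = x + y) := by
      intro z hz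
      rw [Finset.mem_insert, Finset.mem_insert, Finset.mem_singleton] at hz
      rcases hz with rfl | rfl | rfl
      · exact ha
      · exact hb
      · exact hc
    have h5 := Finset.card_le_card h4
    rw [Finset.card_eq_three.2 ⟨a, b, c, hab, hac, hbc, rfl⟩] at h5
    omega
  have hmem : ∀ a b : ℕ, a ∈ S → b ∈ S → a + b = x + y →
      (a, b) ∈ (S ×ˢ S).filter (fun q => q.1 + q.2 = x + y) := fun a b ha hb hab =>
    Finset.mem_filter.2 ⟨Finset.mem_product.2 ⟨ha, hb⟩, hab⟩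
  by_cases hxy : x = y
  · have hvx : v ≠ x := by omega
    refine key (x, y) (u, v) (v, u) ?_ ?_ ?_ (hmem _ _ hx hy rfl) (hmem _ _ hu hv h)
      (hmem _ _ hv hu (by omega))
    · intro e
      exact h1 (Prod.mk.inj e).1.symm
    · intro e
      exact hvx (Prod.mk.inj e).1.symm
    · intro e
      have := (Prod.mk.inj e).1
      omega
  · refine key (x, y) (y, x) (u, v) ?_ ?_ ?_ (hmem _ _ hx hy rfl) (hmem _ _ hy hx (by omega))
      (hmem _ _ hu hv h)
    · intro e
      exact hxy (Prod.mk.inj e).1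
    · intro e
      exact h1 (Prod.mk.inj e).1.symm
    · intro e
      exact h2 (Prod.mk.inj e).1.symm

/-- no carries -/
theorem div_add {Q : ℕ} (hQ : 0 < Q) {a a' : ℕ} (J : ℕ)
    (h : ∀ i < J, 2 * (a / Q ^ i % Q) < Q ∧ 2 * (a' / Q ^ i % Q) < Q) :
    ∀ i ≤ J, (a + a') / Q ^ i = a / Q ^ i + a' / Q ^ i := by
  intro i
  induction i with
  | zero =>
    intro _
    simp
  | succ i ih =>
    intro hi
    obtain ⟨h1, h2⟩ := h i (by omega)
    rw [pow_succ, ← Nat.div_div_eq_div_mul, ← Nat.div_div_eq_div_mul, ← Nat.div_div_eq_div_mul,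
      ih (by omega)]
    exact Nat.add_div_eq_of_add_mod_lt (by omega)

theorem mod_add {Q : ℕ} (hQ : 0 < Q) {a a' : ℕ} {J : ℕ}
    (h : ∀ i < J, 2 * (a / Q ^ i % Q) < Q ∧ 2 * (a' / Q ^ i % Q) < Q) {i : ℕ} (hi : i < J) :
    (a + a') / Q ^ i % Q = a / Q ^ i % Q + a' / Q ^ i % Q := by
  rw [div_add hQ J h i hi.le]
  obtain ⟨h1, h2⟩ := h i hi
  exact Nat.add_mod_of_add_mod_lt (by omega)

variable {K : Type} [DecidableEq K]

/-- the level set, as a set of numbers -/
def lev (Q J : ℕ) (B : Finset (Fin Q)) (g : (Fin J → Fin Q) → K) (t : K) :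
    Finset (Fin J → Fin Q) :=
  (Fintype.piFinset fun _ => B).filter fun c => g c = t

/-- the numbers of the level set -/
def levN (Q J : ℕ) (B : Finset (Fin Q)) (g : (Fin J → Fin Q) → K) (t : K) : Set ℕ :=
  {a | ∃ c ∈ lev Q J B g t, (finFunctionFinEquiv c : ℕ) = a}

theorem val_div_mod {Q J : ℕ} (c : Fin J → Fin Q) (i : Fin J) :
    (finFunctionFinEquiv c : ℕ) / Q ^ (i : ℕ) % Q = c i := by
  have h := congrFun (finFunctionFinEquiv.symm_apply_apply c) i
  have h1 : ((finFunctionFinEquiv.symm (finFunctionFinEquiv c)) i : ℕ) =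
      (finFunctionFinEquiv c : ℕ) / Q ^ (i : ℕ) % Q := rfl
  rw [← h1, h]

/-- **The representation function of the level set.** -/
theorem rep_levN {Q J N : ℕ} (hQ : 0 < Q) {S₀ : Finset ℕ} (hS1 : ∀ a ∈ S₀, 2 * a < Q)
    (hS2 : ∀ N, rpF S₀ N ≤ 2) {B : Finset (Fin Q)} (hB : ∀ v, v ∈ B ↔ (v : ℕ) ∈ S₀)
    {g : (Fin J → Fin Q) → K}
    (hg : ∀ p p' : Fin J → Fin Q, (∀ i, p i ∈ B) → (∀ i, p' i ∈ B) → ∀ t,
      ((cub p p').filter fun c => g c = t).card ≤ N) (t : K) (m : ℕ) :
    rep (levN Q J B g t) m ≤ N := by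
  classical
  unfold rep
  rcases Set.eq_empty_or_nonempty {p : ℕ × ℕ | p.1 ∈ levN Q J B g t ∧ p.2 ∈ levN Q J B g t ∧
    p.1 + p.2 = m} with h0 | ⟨⟨a₀, a₀'⟩, ⟨p, hp, hpa⟩, ⟨p', hp', hpa'⟩, h3⟩
  · rw [h0, Set.ncard_empty]
    exact Nat.zero_le _
  · simp only at hpa hpa' h3
    unfold lev at hp hp'
    rw [Finset.mem_filter, Fintype.mem_piFinset] at hp hp'
    have hsmall : ∀ (c : Fin J → Fin Q), (∀ i, c i ∈ B) → ∀ i < J,
        2 * ((finFunctionFinEquiv c : ℕ) / Q ^ i % Q) < Q := by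
      intro c hc i hi
      have h1 := val_div_mod c ⟨i, hi⟩
      simp only at h1
      rw [h1]
      exact hS1 _ ((hB _).1 (hc _))
    have hblk : ∀ (c c' : Fin J → Fin Q), (∀ i, c i ∈ B) → (∀ i, c' i ∈ B) →
        (finFunctionFinEquiv c : ℕ) + (finFunctionFinEquiv c' : ℕ) = m →
        ∀ i : Fin J, (c i : ℕ) + (c' i : ℕ) = m / Q ^ (i : ℕ) % Q := by
      intro c c' hc hc' e i
      rw [← e, mod_add hQ (J := J) (fun i hi => ⟨hsmall c hc i hi, hsmall c' hc' i hi⟩) i.2,
        val_div_mod, val_div_mod]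
    refine le_trans ?_ (hg p p' hp.1 hp'.1 t)
    rw [← Set.ncard_coe_finset]
    haveI : Nonempty (Fin J → Fin Q) := ⟨p⟩
    have hinv : ∀ a ∈ levN Q J B g t, ∃ c : Fin J → Fin Q,
        c ∈ lev Q J B g t ∧ (finFunctionFinEquiv c : ℕ) = a := fun a ha => ha
    choose! F hF1 hF2 using hinv
    refine Set.ncard_le_ncard_of_injOn (fun w => F w.1) ?_ ?_ (Finset.finite_toSet _)
    · rintro ⟨a, a'⟩ ⟨ha, ha', e⟩
      simp only at ha ha' e
      have h1 := hF1 a ha
      have h2 := hF1 a' ha'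
      unfold lev at h1 h2
      rw [Finset.mem_filter, Fintype.mem_piFinset] at h1 h2
      simp only [Finset.mem_coe, Finset.mem_filter]
      refine ⟨mem_cub.2 fun i => ?_, h1.2⟩
      have e1 := hblk _ _ h1.1 h2.1 (by rw [hF2 a ha, hF2 a' ha', e]) i
      have e2 := hblk _ _ hp.1 hp'.1 (by rw [hpa, hpa', h3]) i
      have e3 := two_reps hS2 ((hB _).1 (hp.1 i)) ((hB _).1 (hp'.1 i)) ((hB _).1 (h1.1 i))
        ((hB _).1 (h2.1 i)) (e1.trans e2.symm)
      rcases e3 with e3 | e3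
      · exact Or.inl (Fin.ext e3)
      · exact Or.inr (Fin.ext e3)
    · rintro ⟨a, a'⟩ ⟨ha, ha', e⟩ ⟨b, b'⟩ ⟨hb, hb', e'⟩ heq
      simp only at ha ha' e hb hb' e' heq
      have h4 : a = b := by rw [← hF2 a ha, ← hF2 b hb, heq]
      have h5 : a' = b' := by omega
      rw [h4, h5]

/-- pigeonhole -/
theorem exists_level [Fintype K] {Q J : ℕ} (B : Finset (Fin Q)) (g : (Fin J → Fin Q) → K)
    (hK : 0 < Fintype.card K) :
    ∃ t, B.card ^ J ≤ Fintype.card K * (lev Q J B g t).card := by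
  classical
  by_contra hcon
  push Not at hcon
  have h1 : ∑ t : K, (lev Q J B g t).card = B.card ^ J := by
    unfold lev
    rw [← Finset.card_eq_sum_card_fiberwise (f := g) (t := univ)
      (fun c _ => Finset.mem_coe.2 (Finset.mem_univ _)), Fintype.card_piFinset, Finset.prod_const,
      Finset.card_univ, Fintype.card_fin]
  have h2 : Fintype.card K * B.card ^ J < Fintype.card K * B.card ^ J := by
    have hne : (univ : Finset K).Nonempty := by
      rw [← Finset.card_pos, Finset.card_univ]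
      exact hK
    calc Fintype.card K * B.card ^ J = Fintype.card K * ∑ t : K, (lev Q J B g t).card := by
          rw [h1]
      _ = ∑ t : K, Fintype.card K * (lev Q J B g t).card := Finset.mul_sum _ _ _
      _ < ∑ _t : K, B.card ^ J := Finset.sum_lt_sum_of_nonempty hne fun t _ => hcon t
      _ = Fintype.card K * B.card ^ J := by
          rw [Finset.sum_const, Finset.card_univ, smul_eq_mul]
  exact lt_irrefl _ h2

end Pool.Agent.Helper29.LS
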